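import Mathlib

/-! A hierarchical form of the fractional bound of Molloy and Reed: weighted stable sets of a graph
whose vertices are arranged in levels. -/

set_option autoImplicit false
set_option linter.unusedSectionVars false

namespace Pool.Agent.H492.BF

open Finset
open scoped Classical

variable {α : Type} [Fintype α]

/-- stable sets -/
def St (adj : α → α → Prop) (S : Finset α) : Prop := ∀ u ∈ S, ∀ v ∈ S, ¬ adj u v

lemma St.insert {adj : α → α → Prop} (hs : ∀ u v, adj u v → adj v u) (hi : ∀ u, ¬ adj u u)
    {S : Finset α} (h : St adj S) {u : α} (hu : ∀ v ∈ S, ¬ adj u v) : St adj (insert u S) := by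
  intro a ha b hb
  rcases mem_insert.1 ha with ha | ha
  · rcases mem_insert.1 hb with hb | hb
    · rw [ha, hb]; exact hi _
    · rw [ha]; exact hu b hb
  · rcases mem_insert.1 hb with hb | hb
    · rw [hb]; exact fun h' => hu a ha (hs _ _ h')
    · exact h a ha b hb

lemma St.mono {adj : α → α → Prop} {S T : Finset α} (h : St adj S) (hT : T ⊆ S) : St adj T :=
  fun u hu v hv => h u (hT hu) v (hT hv)

/-- the lemma of Molloy and Reed on random maximum stable sets -/
lemma reed {adj : α → α → Prop} (hs : ∀ u v, adj u v → adj v u) (hi : ∀ u, ¬ adj u u)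
    (A : Finset α) (v : α) (hv : v ∈ A) (K : ℕ)
    (hK : ∀ Q ⊆ A, v ∈ Q → (∀ u ∈ Q, ∀ u' ∈ Q, u ≠ u' → adj u u') → Q.card ≤ K)
    (m : ℕ) (U : Finset (Finset α)) (hU : ∀ R, R ∈ U ↔ R ⊆ A ∧ St adj R ∧ R.card = m)
    (hmax : ∀ R ⊆ A, St adj R → R.card ≤ m) :
    2 * U.card ≤ ∑ R ∈ U, ((R.filter (fun u => adj v u)).card + (K + 1) * (if v ∈ R then 1 else 0)) := by
  have hK1 : 1 ≤ K := by
    have := hK {v} (by simpa using hv) (by simp) (by
      intro u hu u' hu' h
      rw [mem_singleton] at hu hu'
      exact absurd (hu.trans hu'.symm) h)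
    simpa using this
  set C := U.filter (fun R => v ∈ R) with hC
  set B := U.filter (fun R => v ∉ R ∧ (R.filter (fun u => adj v u)).card = 1) with hB
  have hBC : B.card ≤ (K - 1) * C.card := by
    refine Finset.card_le_mul_card_image_of_maps_to
      (f := fun R => insert v (R.filter (fun u => ¬ adj v u))) ?_ _ ?_
    · intro R hR
      rw [hB, mem_filter] at hR
      obtain ⟨hRU, hvR, hc⟩ := hR
      obtain ⟨h1, h2, h3⟩ := (hU R).1 hRU
      rw [hC, mem_filter]
      refine ⟨(hU _).2 ⟨?_, ?_, ?_⟩, mem_insert_self _ _⟩
      · intro x hx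
        rcases mem_insert.1 hx with rfl | hx
        · exact hv
        · exact h1 (mem_filter.1 hx).1
      · exact (h2.mono (filter_subset _ _)).insert hs hi (fun u hu => (mem_filter.1 hu).2)
      · rw [card_insert_of_notMem (fun h => hvR (mem_filter.1 h).1)]
        have := Finset.card_filter_add_card_filter_not (s := R) (fun u => adj v u)
        omega
    · intro R0 hR0
      set F := B.filter (fun R => insert v (R.filter (fun u => ¬ adj v u)) = R0) with hF
      have hFB : ∀ R ∈ F, R ∈ U ∧ v ∉ R ∧ (R.filter (fun u => adj v u)).card = 1 ∧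
          insert v (R.filter (fun u => ¬ adj v u)) = R0 := by
        intro R hR
        rw [hF, mem_filter, hB, mem_filter] at hR
        exact ⟨hR.1.1, hR.1.2.1, hR.1.2.2, hR.2⟩
      have hT : ∀ R ∈ F, R.filter (fun u => ¬ adj v u) = R0.erase v := by
        intro R hR
        obtain ⟨_, h2, _, h4⟩ := hFB R hR
        rw [← h4, erase_insert (fun h => h2 (mem_filter.1 h).1)]
      have hex : ∀ R ∈ F, ∃ u, R.filter (fun u => adj v u) = {u} := by
        intro R hR
        exact card_eq_one.1 (hFB R hR).2.2.1
      have : Nonempty α := ⟨v⟩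
      choose! nb hnb using hex
      have hnb1 : ∀ R ∈ F, nb R ∈ R ∧ adj v (nb R) := by
        intro R hR
        have : nb R ∈ R.filter (fun u => adj v u) := by rw [hnb R hR]; simp
        exact mem_filter.1 this
      have hinj : Set.InjOn nb (F : Set (Finset α)) := by
        intro R hR R' hR' h
        have e1 := Finset.filter_union_filter_not_eq (fun u => adj v u) R
        have e2 := Finset.filter_union_filter_not_eq (fun u => adj v u) R'
        rw [← e1, ← e2, hnb R hR, hnb R' hR', hT R hR, hT R' hR', h]
      have hcl : (insert v (F.image nb)).card ≤ K := by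
        apply hK
        · intro x hx
          rcases mem_insert.1 hx with rfl | hx
          · exact hv
          · obtain ⟨R, hR, rfl⟩ := mem_image.1 hx
            exact ((hU R).1 (hFB R hR).1).1 (hnb1 R hR).1
        · exact mem_insert_self _ _
        · have key : ∀ R ∈ F, ∀ R' ∈ F, nb R ≠ nb R' → adj (nb R) (nb R') := by
            intro R hR R' hR' hne
            by_contra hna
            obtain ⟨h1, h2, h3⟩ := (hU R).1 (hFB R hR).1
            obtain ⟨h1', h2', h3'⟩ := (hU R').1 (hFB R' hR').1
            have hnot : nb R' ∉ R := by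
              intro h
              have : nb R' ∈ R.filter (fun u => adj v u) := mem_filter.2 ⟨h, (hnb1 R' hR').2⟩
              rw [hnb R hR, mem_singleton] at this
              exact hne this.symm
            have hst : St adj (insert (nb R') R) := by
              refine h2.insert hs hi ?_
              intro x hx hadj
              by_cases hvx : adj v x
              · have : x ∈ R.filter (fun u => adj v u) := mem_filter.2 ⟨hx, hvx⟩
                rw [hnb R hR, mem_singleton] at this
                rw [this] at hadj
                exact hna (hs _ _ hadj)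
              · have : x ∈ R.filter (fun u => ¬ adj v u) := mem_filter.2 ⟨hx, hvx⟩
                rw [hT R hR, ← hT R' hR'] at this
                exact h2' _ (hnb1 R' hR').1 _ (mem_filter.1 this).1 hadj
            have := hmax (insert (nb R') R) (by
              intro x hx
              rcases mem_insert.1 hx with rfl | hx
              · exact h1' (hnb1 R' hR').1
              · exact h1 hx) hst
            rw [card_insert_of_notMem hnot] at this
            omega
          intro u hu u' hu' hne
          rcases mem_insert.1 hu with h | hu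
          · rcases mem_insert.1 hu' with h' | hu'
            · exact absurd (h.trans h'.symm) hne
            · obtain ⟨R, hR, rfl⟩ := mem_image.1 hu'
              rw [h]
              exact (hnb1 R hR).2
          · obtain ⟨R, hR, rfl⟩ := mem_image.1 hu
            rcases mem_insert.1 hu' with h' | hu'
            · rw [h']
              exact hs _ _ (hnb1 R hR).2
            · obtain ⟨R', hR', rfl⟩ := mem_image.1 hu'
              exact key R hR R' hR' hne
      rw [card_insert_of_notMem (by
        intro h
        obtain ⟨R, hR, h'⟩ := mem_image.1 h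
        have := (hnb1 R hR).2
        rw [h'] at this
        exact hi _ this), card_image_of_injOn hinj] at hcl
      omega
  have hper : ∀ R ∈ U, 2 + (K - 1) * (if v ∈ R then 1 else 0) ≤
      ((R.filter (fun u => adj v u)).card + (K + 1) * (if v ∈ R then 1 else 0)) +
        (if v ∉ R ∧ (R.filter (fun u => adj v u)).card = 1 then 1 else 0) := by
    intro R hR
    obtain ⟨h1, h2, h3⟩ := (hU R).1 hR
    by_cases hvR : v ∈ R
    · simp only [hvR, if_true, not_true, false_and, if_false]
      omega
    · simp only [hvR, if_false, not_false_eq_true, true_and]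
      have h0 : (R.filter (fun u => adj v u)).card ≠ 0 := by
        intro h0
        rw [card_eq_zero] at h0
        have := hmax (insert v R) (by
          intro x hx
          rcases mem_insert.1 hx with rfl | hx
          · exact hv
          · exact h1 hx) (h2.insert hs hi (by
            intro u hu hadj
            have : u ∈ R.filter (fun u => adj v u) := mem_filter.2 ⟨hu, hadj⟩
            rw [h0] at this
            exact absurd this (notMem_empty _)))
        rw [card_insert_of_notMem hvR] at this
        omega
      split_ifs with h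
      · omega
      · omega
  have hsum := Finset.sum_le_sum hper
  rw [Finset.sum_add_distrib, Finset.sum_add_distrib (s := U)
    (f := fun R => (R.filter (fun u => adj v u)).card + (K + 1) * (if v ∈ R then 1 else 0)),
    ← Finset.mul_sum, Finset.sum_const, Finset.sum_boole, Finset.sum_boole] at hsum
  simp only [Nat.cast_id, smul_eq_mul] at hsum
  rw [← hC, ← hB] at hsum
  have : U.card * 2 = 2 * U.card := mul_comm _ _
  omega

/-- the coefficients of the local inequality -/
noncomputable def bt (adj : α → α → Prop) (lv : α → ℕ) (K : α → ℕ) (v u : α) : ℝ :=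
  (if adj v u ∧ lv u < lv v then 1 else 0) + (if adj v u ∧ lv u = lv v then 1 / 2 else 0) +
    (if u = v then ((K v : ℝ) + 1) / 2 else 0)

lemma bt_nonneg (adj : α → α → Prop) (lv : α → ℕ) (K : α → ℕ) (v u : α) : 0 ≤ bt adj lv K v u := by
  unfold bt
  have : (0 : ℝ) ≤ (K v : ℝ) := Nat.cast_nonneg _
  split_ifs <;> linarith

/-- hierarchical random maximum stable sets -/
lemma hier {adj : α → α → Prop} (hs : ∀ u v, adj u v → adj v u) (hi : ∀ u, ¬ adj u u)
    (lv : α → ℕ) (K : α → ℕ)
    (hK : ∀ v, ∀ Q : Finset α, v ∈ Q → (∀ u ∈ Q, lv u = lv v) →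
      (∀ u ∈ Q, ∀ u' ∈ Q, u ≠ u' → adj u u') → Q.card ≤ K v) (W : Finset α) (n : ℕ) :
    ∃ (ι : Type) (_ : Fintype ι) (a : ι → ℝ) (S : ι → Finset α), (∀ i, 0 ≤ a i) ∧ ∑ i, a i = 1 ∧
      (∀ i, S i ⊆ W ∧ St adj (S i) ∧ ∀ u ∈ S i, lv u < n) ∧
      ∀ v ∈ W, lv v < n → 1 ≤ ∑ i, a i * ∑ u ∈ S i, bt adj lv K v u := by
  induction n with
  | zero =>
    refine ⟨Unit, inferInstance, fun _ => 1, fun _ => ∅, by simp, by simp, ?_, ?_⟩
    · intro i
      refine ⟨by simp, ?_, by simp⟩
      intro u hu
      exact absurd hu (notMem_empty _)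
    · intro v _ h
      exact absurd h (Nat.not_lt_zero _)
  | succ n ih =>
    obtain ⟨ι, _, a, S, ha, hsum, hS, hr⟩ := ih
    let A : ι → Finset α := fun i => W.filter (fun v => lv v = n ∧ ∀ u ∈ S i, ¬ adj v u)
    have hex : ∀ i, ∃ m, (∃ R ⊆ A i, St adj R ∧ R.card = m) ∧ ∀ R ⊆ A i, St adj R → R.card ≤ m := by
      intro i
      obtain ⟨R, hR, hRm⟩ := Finset.exists_max_image ((A i).powerset.filter (fun R => St adj R))
        (fun R => R.card) ⟨∅, by
          rw [mem_filter]
          exact ⟨by simp, fun u hu => absurd hu (notMem_empty _)⟩⟩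
      rw [mem_filter, mem_powerset] at hR
      exact ⟨R.card, ⟨R, hR.1, hR.2, rfl⟩, fun R' h1 h2 => hRm R' (by
        rw [mem_filter, mem_powerset]; exact ⟨h1, h2⟩)⟩
    choose m hm1 hm2 using hex
    let U : ι → Finset (Finset α) := fun i =>
      (A i).powerset.filter (fun R => St adj R ∧ R.card = m i)
    have hU : ∀ i R, R ∈ U i ↔ R ⊆ A i ∧ St adj R ∧ R.card = m i := by
      intro i R
      simp only [U, mem_filter, mem_powerset]
    have hUpos : ∀ i, (0 : ℝ) < (U i).card := by
      intro i
      obtain ⟨R, h1, h2, h3⟩ := hm1 i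
      exact_mod_cast card_pos.2 ⟨R, (hU i R).2 ⟨h1, h2, h3⟩⟩
    have hsig : ∀ f : (i : ι) → Finset α → ℝ,
        ∑ x : (Σ i : ι, {R // R ∈ U i}), a x.1 / (U x.1).card * f x.1 x.2.1 =
          ∑ i, a i * ((∑ R ∈ U i, f i R) / (U i).card) := by
      intro f
      rw [Fintype.sum_sigma]
      apply Finset.sum_congr rfl
      intro i _
      rw [← Finset.sum_coe_sort (U i) (fun R => f i R), Finset.sum_div, Finset.mul_sum]
      apply Finset.sum_congr rfl
      intro R _
      ring
    have hlt : ∀ i, ∀ R ∈ U i, ∀ u ∈ R, u ∈ W ∧ lv u = n ∧ ∀ u' ∈ S i, ¬ adj u u' := by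
      intro i R hR u hu
      have := ((hU i R).1 hR).1 hu
      simp only [A, mem_filter] at this
      exact ⟨this.1, this.2.1, this.2.2⟩
    have hdis : ∀ i, ∀ R ∈ U i, Disjoint (S i) R := by
      intro i R hR
      rw [Finset.disjoint_left]
      intro u h1 h2
      have h3 := (hS i).2.2 u h1
      have h4 := (hlt i R hR u h2).2.1
      omega
    refine ⟨(Σ i : ι, {R // R ∈ U i}), inferInstance, fun x => a x.1 / (U x.1).card,
      fun x => S x.1 ∪ x.2.1, ?_, ?_, ?_, ?_⟩
    · intro x
      exact div_nonneg (ha _) (hUpos _).le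
    · have h := hsig (fun _ _ => 1)
      simp only [mul_one] at h
      refine h.trans (Eq.trans ?_ hsum)
      apply Finset.sum_congr rfl
      intro i _
      rw [Finset.sum_const, nsmul_eq_mul, mul_one, div_self (hUpos i).ne', mul_one]
    · rintro ⟨i, R, hR⟩
      refine ⟨?_, ?_, ?_⟩
      · intro u hu
        rcases mem_union.1 hu with hu | hu
        · exact (hS i).1 hu
        · exact (hlt i R hR u hu).1
      · intro u hu u' hu'
        rcases mem_union.1 hu with hu | hu
        · rcases mem_union.1 hu' with hu' | hu'
          · exact (hS i).2.1 u hu u' hu'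
          · exact fun h => (hlt i R hR u' hu').2.2 u hu (hs _ _ h)
        · rcases mem_union.1 hu' with hu' | hu'
          · exact (hlt i R hR u hu).2.2 u' hu'
          · exact ((hU i R).1 hR).2.1 u hu u' hu'
      · intro u hu
        rcases mem_union.1 hu with hu | hu
        · exact ((hS i).2.2 u hu).trans (Nat.lt_succ_self n)
        · rw [(hlt i R hR u hu).2.1]
          exact Nat.lt_succ_self n
    · intro v hv hvn
      have h := hsig (fun i R => ∑ u ∈ S i ∪ R, bt adj lv K v u)
      rw [h]
      rcases Nat.lt_succ_iff_lt_or_eq.1 hvn with hvn | hvn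
      · refine (hr v hv hvn).trans (le_of_eq ?_)
        apply Finset.sum_congr rfl
        intro i _
        congr 1
        rw [eq_div_iff (hUpos i).ne', mul_comm, ← nsmul_eq_mul, ← Finset.sum_const]
        apply Finset.sum_congr rfl
        intro R hR
        rw [Finset.sum_union (hdis i R hR)]
        have : ∑ u ∈ R, bt adj lv K v u = 0 := by
          apply Finset.sum_eq_zero
          intro u hu
          have h2 := (hlt i R hR u hu).2.1
          unfold bt
          rw [if_neg (by omega), if_neg (by omega), if_neg (by rintro rfl; omega)]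
          simp
        rw [this, add_zero]
      · rw [← hsum]
        apply Finset.sum_le_sum
        intro i _
        refine le_mul_of_one_le_right (ha i) ?_
        rw [le_div_iff₀ (hUpos i), one_mul]
        by_cases hvA : v ∈ A i
        · have h1 := reed hs hi (A i) v hvA (K v) (by
            intro Q hQ hvQ hcl
            refine hK v Q hvQ ?_ hcl
            intro u hu
            have h2 := hQ hu
            simp only [A, mem_filter] at h2
            rw [h2.2.1, hvn]) (m i) (U i) (hU i) (hm2 i)
          have h2 : ∀ R ∈ U i, ((((R.filter (fun u => adj v u)).card +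
              (K v + 1) * (if v ∈ R then 1 else 0) : ℕ) : ℝ)) / 2 ≤
              ∑ u ∈ S i ∪ R, bt adj lv K v u := by
            intro R hR
            rw [Finset.sum_union (hdis i R hR)]
            have h3 : 0 ≤ ∑ u ∈ S i, bt adj lv K v u :=
              Finset.sum_nonneg (fun u _ => bt_nonneg _ _ _ _ _)
            have h4 : ∑ u ∈ R, bt adj lv K v u =
                (((R.filter (fun u => adj v u)).card +
              (K v + 1) * (if v ∈ R then 1 else 0) : ℕ) : ℝ) / 2 := by
              have h5 : ∀ u ∈ R, bt adj lv K v u = (if adj v u then 1 / 2 else 0) +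
                  (if u = v then ((K v : ℝ) + 1) / 2 else 0) := by
                intro u hu
                have h6 := (hlt i R hR u hu).2.1
                unfold bt
                rw [if_neg (by omega), zero_add]
                congr 1
                apply if_congr _ rfl rfl
                constructor
                · exact fun h => h.1
                · exact fun h => ⟨h, by omega⟩
              rw [Finset.sum_congr rfl h5, Finset.sum_add_distrib, ← Finset.sum_filter,
                Finset.sum_const, Finset.sum_ite_eq' R v]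
              push_cast
              split_ifs <;> simp <;> ring
            rw [h4]
            linarith
          have h7 := Finset.sum_le_sum h2
          rw [← Finset.sum_div] at h7
          have h8 : ((2 * (U i).card : ℕ) : ℝ) ≤ ((∑ R ∈ U i, ((R.filter (fun u => adj v u)).card +
            (K v + 1) * (if v ∈ R then 1 else 0)) : ℕ) : ℝ) := by exact_mod_cast h1
          push_cast at h8 h7
          linarith
        · have hu : ∃ u ∈ S i, adj v u := by
            by_contra hcon
            push Not at hcon
            exact hvA (by simp only [A, mem_filter]; exact ⟨hv, hvn, hcon⟩)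
          obtain ⟨u, hu, hadj⟩ := hu
          have h1 : ∀ R ∈ U i, (1 : ℝ) ≤ ∑ u ∈ S i ∪ R, bt adj lv K v u := by
            intro R hR
            have h2 : (1 : ℝ) ≤ bt adj lv K v u := by
              have h3 := (hS i).2.2 u hu
              unfold bt
              rw [if_pos ⟨hadj, by omega⟩]
              have : (0 : ℝ) ≤ (K v : ℝ) := Nat.cast_nonneg _
              split_ifs <;> linarith
            exact h2.trans (Finset.single_le_sum (f := fun u => bt adj lv K v u)
              (fun u _ => bt_nonneg _ _ _ _ _) (mem_union_left R hu))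
          have h2 := Finset.sum_le_sum h1
          rw [Finset.sum_const, nsmul_eq_mul, mul_one] at h2
          exact h2

/-- the iteration -/
lemma iter {adj : α → α → Prop} (hs : ∀ u v, adj u v → adj v u) (hi : ∀ u, ¬ adj u u)
    (lv : α → ℕ) (K : α → ℕ)
    (hK : ∀ v, ∀ Q : Finset α, v ∈ Q → (∀ u ∈ Q, lv u = lv v) →
      (∀ u ∈ Q, ∀ u' ∈ Q, u ≠ u' → adj u u') → Q.card ≤ K v)
    (w : α → ℝ) (X : ℝ) (hX : ∀ S, St adj S → ∑ v ∈ S, w v ≤ X) :
    ∀ (k : ℕ) (y : α → ℝ) (N : ℝ), 0 ≤ N → (∀ v, 0 ≤ y v) →
      (univ.filter (fun v => 0 < y v)).card ≤ k →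
      (∀ v, 0 < y v → ∑ u, bt adj lv K v u * y u ≤ N) → ∑ v, w v * y v ≤ N * X := by
  have hX0 : 0 ≤ X := by
    have := hX ∅ (fun u hu => absurd hu (notMem_empty _))
    simpa using this
  intro k
  induction k with
  | zero =>
    intro y N hN hy hc _
    have h0 : ∀ v, y v = 0 := by
      intro v
      have h1 : univ.filter (fun v => 0 < y v) = ∅ := card_eq_zero.1 (Nat.le_zero.1 hc)
      have h2 : v ∉ univ.filter (fun v => 0 < y v) := by rw [h1]; exact notMem_empty _
      rw [mem_filter] at h2
      push Not at h2
      exact le_antisymm (h2 (mem_univ v)) (hy v)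
    simp only [h0, mul_zero, Finset.sum_const_zero]
    positivity
  | succ k ih =>
    intro y N hN hy hc hF
    set W := univ.filter (fun v => 0 < y v) with hW
    have hmW : ∀ v, v ∈ W ↔ 0 < y v := by
      intro v
      rw [hW, mem_filter]
      simp
    by_cases hWe : W = ∅
    · apply ih y N hN hy _ hF
      rw [← hW, hWe]
      simp
    obtain ⟨v2, hv2⟩ := nonempty_iff_ne_empty.2 hWe
    obtain ⟨ι, _, a, S, ha, hsum, hS, hr⟩ := hier hs hi lv K hK W (univ.sup lv + 1)
    have hr' : ∀ v ∈ W, 1 ≤ ∑ i, a i * ∑ u ∈ S i, bt adj lv K v u := by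
      intro v hv
      exact hr v hv (Nat.lt_succ_of_le (Finset.le_sup (f := lv) (mem_univ v)))
    let p : α → ℝ := fun u => ∑ i, a i * (if u ∈ S i then 1 else 0)
    have hp0 : ∀ u, 0 ≤ p u := by
      intro u
      apply Finset.sum_nonneg
      intro i _
      apply mul_nonneg (ha i)
      split_ifs <;> norm_num
    have hpW : ∀ u, 0 < p u → u ∈ W := by
      intro u hu
      by_contra h
      have : p u = 0 := by
        apply Finset.sum_eq_zero
        intro i _
        rw [if_neg (fun h' => h ((hS i).1 h')), mul_zero]
      rw [this] at hu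
      exact lt_irrefl _ hu
    have hlin : ∀ g : α → ℝ, ∑ u, g u * p u = ∑ i, a i * ∑ u ∈ S i, g u := by
      intro g
      simp only [p, Finset.mul_sum]
      rw [Finset.sum_comm]
      apply Finset.sum_congr rfl
      intro i _
      rw [← Finset.sum_filter_add_sum_filter_not univ (fun u => u ∈ S i)]
      have h1 : ∑ u ∈ univ.filter (fun u => ¬ u ∈ S i), g u * (a i * if u ∈ S i then 1 else 0) = 0 := by
        apply Finset.sum_eq_zero
        intro u hu
        rw [if_neg (mem_filter.1 hu).2, mul_zero, mul_zero]
      rw [h1, add_zero]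
      have h2 : univ.filter (fun u => u ∈ S i) = S i := by ext; simp
      rw [h2]
      apply Finset.sum_congr rfl
      intro u hu
      rw [if_pos hu]
      ring
    have hwp : ∑ u, w u * p u ≤ X := by
      rw [hlin]
      calc ∑ i, a i * ∑ u ∈ S i, w u ≤ ∑ i, a i * X :=
            Finset.sum_le_sum (fun i _ => mul_le_mul_of_nonneg_left (hX _ (hS i).2.1) (ha i))
        _ = X := by rw [← Finset.sum_mul, hsum, one_mul]
    have hbp : ∀ v ∈ W, 1 ≤ ∑ u, bt adj lv K v u * p u := by
      intro v hv
      rw [hlin]
      exact hr' v hv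
    have hexp : (univ.filter (fun v => 0 < p v)).Nonempty := by
      by_contra h
      rw [not_nonempty_iff_eq_empty] at h
      have h0 : ∀ u, p u = 0 := by
        intro u
        have : u ∉ univ.filter (fun v => 0 < p v) := by rw [h]; exact notMem_empty _
        rw [mem_filter] at this
        push Not at this
        exact le_antisymm (this (mem_univ u)) (hp0 u)
      have := hbp v2 hv2
      simp only [h0, mul_zero, Finset.sum_const_zero] at this
      linarith
    obtain ⟨v1, hv1, hmin⟩ := Finset.exists_min_image _ (fun v => y v / p v) hexp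
    have hv1p : 0 < p v1 := (mem_filter.1 hv1).2
    have hv1y : 0 < y v1 := (hmW v1).1 (hpW v1 hv1p)
    set t := y v1 / p v1 with ht
    have ht0 : 0 < t := div_pos hv1y hv1p
    have hge : ∀ u, t * p u ≤ y u := by
      intro u
      by_cases hu : 0 < p u
      · have := hmin u (by rw [mem_filter]; exact ⟨mem_univ u, hu⟩)
        rw [ht]
        exact (le_div_iff₀ hu).1 this
      · have h0 : p u = 0 := le_antisymm (not_lt.1 hu) (hp0 u)
        rw [h0, mul_zero]
        exact hy u
    let y' : α → ℝ := fun u => y u - t * p u
    have hy' : ∀ u, 0 ≤ y' u := fun u => sub_nonneg.2 (hge u)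
    have hsub : ∀ u, 0 < y' u → 0 < y u := by
      intro u hu
      have h1 : 0 ≤ t * p u := mul_nonneg ht0.le (hp0 u)
      simp only [y'] at hu
      linarith
    have hFy : ∀ v, ∑ u, bt adj lv K v u * y' u =
        ∑ u, bt adj lv K v u * y u - t * ∑ u, bt adj lv K v u * p u := by
      intro v
      simp only [y', mul_sub, Finset.sum_sub_distrib]
      congr 1
      rw [Finset.mul_sum]
      apply Finset.sum_congr rfl
      intro u _
      ring
    have hle : ∀ v ∈ W, ∑ u, bt adj lv K v u * y' u ≤ N - t := by
      intro v hv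
      have h1 := hF v ((hmW v).1 hv)
      have h2 := hbp v hv
      rw [hFy]
      nlinarith
    have hNt : 0 ≤ N - t :=
      le_trans (Finset.sum_nonneg (fun u _ => mul_nonneg (bt_nonneg _ _ _ _ _) (hy' u)))
        (hle v2 hv2)
    have hrec := ih y' (N - t) hNt hy' (by
      have h1 : univ.filter (fun v => 0 < y' v) ⊆ W.erase v1 := by
        intro u hu
        have h2 := (mem_filter.1 hu).2
        rw [mem_erase]
        refine ⟨?_, (hmW u).2 (hsub u h2)⟩
        rintro rfl
        have h3 : y' u = 0 := by
          simp only [y', ht]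
          field_simp
          ring
        rw [h3] at h2
        exact lt_irrefl _ h2
      have h2 := card_le_card h1
      rw [card_erase_of_mem ((hmW v1).2 hv1y)] at h2
      omega) (fun v hv => hle v ((hmW v).2 (hsub v hv)))
    have hsplit : ∑ v, w v * y v = ∑ v, w v * y' v + t * ∑ v, w v * p v := by
      simp only [y', mul_sub, Finset.sum_sub_distrib]
      rw [Finset.mul_sum]
      have : ∑ x, w x * (t * p x) = ∑ i, t * (w i * p i) :=
        Finset.sum_congr rfl (fun u _ => by ring)
      rw [this]
      ring
    rw [hsplit]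
    have := mul_le_mul_of_nonneg_left hwp ht0.le
    nlinarith

/-- the weighted bound -/
theorem weighted {adj : α → α → Prop} (hs : ∀ u v, adj u v → adj v u) (hi : ∀ u, ¬ adj u u)
    (lv : α → ℕ) (K : α → ℕ)
    (hK : ∀ v, ∀ Q : Finset α, v ∈ Q → (∀ u ∈ Q, lv u = lv v) →
      (∀ u ∈ Q, ∀ u' ∈ Q, u ≠ u' → adj u u') → Q.card ≤ K v)
    (w : α → ℝ) (N : ℝ) (hN0 : 0 ≤ N)
    (hN : ∀ v, ((univ.filter (fun u => adj v u ∧ lv u < lv v)).card : ℝ) +
      (((univ.filter (fun u => adj v u ∧ lv u = lv v)).card : ℝ) + K v + 1) / 2 ≤ N) :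
    ∃ S, St adj S ∧ ∑ v, w v ≤ N * ∑ v ∈ S, w v := by
  obtain ⟨S, hS, hmax⟩ := Finset.exists_max_image (univ.filter (fun S : Finset α => St adj S))
    (fun S => ∑ v ∈ S, w v) ⟨∅, by
      rw [mem_filter]
      exact ⟨mem_univ _, fun u hu => absurd hu (notMem_empty _)⟩⟩
  rw [mem_filter] at hS
  refine ⟨S, hS.2, ?_⟩
  have h := iter hs hi lv K hK w (∑ v ∈ S, w v)
    (fun S' hS' => hmax S' (by rw [mem_filter]; exact ⟨mem_univ _, hS'⟩)) _ (fun _ => 1) N hN0
    (fun _ => zero_le_one) le_rfl (by
      intro v _
      refine le_trans (le_of_eq ?_) (hN v)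
      simp only [bt, mul_one, Finset.sum_add_distrib, ← Finset.sum_filter, Finset.sum_const]
      rw [Finset.filter_eq' univ v, if_pos (mem_univ v), card_singleton]
      simp only [nsmul_eq_mul, mul_one, one_smul]
      ring)
  simpa using h

end Pool.Agent.H492.BF
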