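import Pool.Agent.H492.BF.A

/-! Linear hypergraphs: the local parameters. -/

set_option autoImplicit false
set_option linter.unusedSectionVars false

namespace Pool.Agent.H492.BF

open Finset

variable {V : Type} [Fintype V] [DecidableEq V]

/-- number of edges with `k` elements through `v` -/
def rho (H : Finset (Finset V)) (k : ℕ) (v : V) : ℕ := (H.filter (fun F => v ∈ F ∧ F.card = k)).card

/-- number of edges with more than `k` elements through `v` -/
def rgt (H : Finset (Finset V)) (k : ℕ) (v : V) : ℕ := (H.filter (fun F => v ∈ F ∧ k < F.card)).card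

/-- number of other edges of the same size which meet `E` -/
def nbe (H : Finset (Finset V)) (E : Finset V) : ℕ :=
  (H.filter (fun F => F ≠ E ∧ (E ∩ F).Nonempty ∧ F.card = E.card)).card

/-- number of larger edges which meet `E` -/
def nbg (H : Finset (Finset V)) (E : Finset V) : ℕ :=
  (H.filter (fun F => F ≠ E ∧ (E ∩ F).Nonempty ∧ E.card < F.card)).card

/-- bound for the intersecting families of edges of the size of `E` which contain `E` -/
def KK (H : Finset (Finset V)) (E : Finset V) : ℕ :=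
  max (E.sup (rho H E.card)) (min (nbe H E + 1) (E.card * (E.card - 1) + 1))

/-- linear hypergraphs -/
def Lin (H : Finset (Finset V)) : Prop := ∀ E ∈ H, ∀ F ∈ H, E ≠ F → (E ∩ F).card ≤ 1

/-- degrees in the 2-section -/
def Deg (H : Finset (Finset V)) (D : ℕ) : Prop :=
  ∀ v : V, {u : V | u ≠ v ∧ ∃ E ∈ H, u ∈ E ∧ v ∈ E}.ncard ≤ D

lemma Lin.eq {H : Finset (Finset V)} (hl : Lin H) {E F : Finset V} (hE : E ∈ H) (hF : F ∈ H)
    {x y : V} (hx : x ∈ E) (hx' : x ∈ F) (hy : y ∈ E) (hy' : y ∈ F) (hxy : x ≠ y) : E = F := by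
  by_contra h
  have h1 := hl E hE F hF h
  have h2 : 1 < (E ∩ F).card :=
    one_lt_card.2 ⟨x, mem_inter.2 ⟨hx, hx'⟩, y, mem_inter.2 ⟨hy, hy'⟩, hxy⟩
  omega

lemma deg {H : Finset (Finset V)} (hl : Lin H) {D : ℕ} (hD : Deg H D) (v : V) :
    ∑ F ∈ H.filter (fun F => v ∈ F), (F.card - 1) ≤ D := by
  refine le_trans ?_ (hD v)
  have h1 : ∑ F ∈ H.filter (fun F => v ∈ F), (F.card - 1) =
      ((H.filter (fun F => v ∈ F)).biUnion (fun F => F.erase v)).card := by
    rw [card_biUnion]
    · apply Finset.sum_congr rfl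
      intro F hF
      rw [card_erase_of_mem (mem_filter.1 hF).2]
    · intro F hF G hG hne
      rw [mem_coe, mem_filter] at hF hG
      simp only [Function.onFun]
      rw [Finset.disjoint_left]
      intro x hx hy
      rw [mem_erase] at hx hy
      exact hne (hl.eq hF.1 hG.1 hx.2 hy.2 hF.2 hG.2 hx.1)
  rw [h1, ← Set.ncard_coe_finset]
  apply Set.ncard_le_ncard _ (Set.toFinite _)
  intro x hx
  rw [mem_coe, mem_biUnion] at hx
  obtain ⟨F, hF, hx⟩ := hx
  rw [mem_filter] at hF
  rw [mem_erase] at hx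
  exact ⟨hx.1, F, hF.1, hx.2, hF.2⟩

lemma deg2 {H : Finset (Finset V)} (hl : Lin H) {D : ℕ} (hD : Deg H D) (k : ℕ) (v : V) :
    k * rgt H k v + (k - 1) * rho H k v ≤ D := by
  refine le_trans ?_ (deg hl hD v)
  have h1 : ∀ F ∈ H.filter (fun F => v ∈ F),
      (if k < F.card then k else 0) + (if F.card = k then k - 1 else 0) ≤ F.card - 1 := by
    intro F _
    split_ifs <;> omega
  refine le_trans (le_of_eq ?_) (Finset.sum_le_sum h1)
  rw [Finset.sum_add_distrib, ← Finset.sum_filter, ← Finset.sum_filter, filter_filter,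
    filter_filter, Finset.sum_const, Finset.sum_const, smul_eq_mul, smul_eq_mul]
  unfold rgt rho
  ring

lemma rho_pos {H : Finset (Finset V)} {E : Finset V} (hE : E ∈ H) {v : V} (hv : v ∈ E) :
    1 ≤ rho H E.card v :=
  card_pos.2 ⟨E, mem_filter.2 ⟨hE, hv, rfl⟩⟩

lemma nbe_le {H : Finset (Finset V)} {E : Finset V} (hE : E ∈ H) :
    nbe H E + E.card ≤ ∑ v ∈ E, rho H E.card v := by
  have h1 : nbe H E ≤ ∑ v ∈ E, (rho H E.card v - 1) := by
    unfold nbe
    refine le_trans (card_le_card (t := E.biUnion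
      (fun v => (H.filter (fun F => v ∈ F ∧ F.card = E.card)).erase E)) ?_) ?_
    · intro F hF
      rw [mem_filter] at hF
      obtain ⟨hFH, hne, ⟨x, hx⟩, hc⟩ := hF
      rw [mem_inter] at hx
      exact mem_biUnion.2 ⟨x, hx.1, mem_erase.2 ⟨hne, mem_filter.2 ⟨hFH, hx.2, hc⟩⟩⟩
    · refine card_biUnion_le.trans (Finset.sum_le_sum ?_)
      intro v hv
      rw [card_erase_of_mem (mem_filter.2 ⟨hE, hv, rfl⟩)]
      rfl
  have h2 : ∑ v ∈ E, rho H E.card v = ∑ v ∈ E, (rho H E.card v - 1) + E.card := by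
    rw [card_eq_sum_ones E, ← Finset.sum_add_distrib]
    apply Finset.sum_congr rfl
    intro v hv
    have := rho_pos hE hv
    rw [card_eq_sum_ones E] at this
    omega
  omega

lemma nbg_le {H : Finset (Finset V)} {E : Finset V} :
    nbg H E ≤ ∑ v ∈ E, rgt H E.card v := by
  unfold nbg
  refine le_trans (card_le_card (t := E.biUnion
    (fun v => (H.filter (fun F => v ∈ F ∧ E.card < F.card)))) ?_) card_biUnion_le
  intro F hF
  rw [mem_filter] at hF
  obtain ⟨hFH, hne, ⟨x, hx⟩, hc⟩ := hF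
  rw [mem_inter] at hx
  exact mem_biUnion.2 ⟨x, hx.1, mem_filter.2 ⟨hFH, hx.2, hc⟩⟩

/-- intersecting families of edges of the same size in a linear hypergraph -/
lemma clique {H : Finset (Finset V)} (hl : Lin H) {E : Finset V} {Q : Finset (Finset V)}
    (hQ : Q ⊆ H) (hE : E ∈ Q) (hc : ∀ F ∈ Q, F.card = E.card)
    (hm : ∀ F ∈ Q, ∀ G ∈ Q, F ≠ G → (F ∩ G).Nonempty) : Q.card ≤ KK H E := by
  unfold KK
  by_cases hst : ∃ x ∈ E, ∀ F ∈ Q, x ∈ F
  · obtain ⟨x, hx, hxF⟩ := hst
    refine le_trans ?_ (le_max_left _ _)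
    refine le_trans ?_ (Finset.le_sup (f := rho H E.card) hx)
    apply card_le_card
    intro F hF
    exact mem_filter.2 ⟨hQ hF, hxF F hF, hc F hF⟩
  · push Not at hst
    refine le_trans ?_ (le_max_right _ _)
    have herase : (Q.erase E).card + 1 = Q.card := card_erase_add_one hE
    refine le_min ?_ ?_
    · rw [← herase]
      apply Nat.add_le_add_right
      apply card_le_card
      intro F hF
      rw [mem_erase] at hF
      exact mem_filter.2 ⟨hQ hF.2, hF.1, hm E hE F hF.2 (Ne.symm hF.1), hc F hF.2⟩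
    · rw [← herase]
      apply Nat.add_le_add_right
      have h1 : Q.erase E ⊆ E.biUnion (fun x => (Q.filter (fun G => x ∈ G)).erase E) := by
        intro F hF
        rw [mem_erase] at hF
        obtain ⟨x, hx⟩ := hm E hE F hF.2 (Ne.symm hF.1)
        rw [mem_inter] at hx
        exact mem_biUnion.2 ⟨x, hx.1, mem_erase.2 ⟨hF.1, mem_filter.2 ⟨hF.2, hx.2⟩⟩⟩
      refine (card_le_card h1).trans (card_biUnion_le.trans ?_)
      refine le_trans (Finset.sum_le_sum (g := fun _ => E.card - 1) ?_) (by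
        rw [Finset.sum_const, smul_eq_mul])
      intro x hx
      rw [card_erase_of_mem (mem_filter.2 ⟨hE, hx⟩)]
      apply Nat.sub_le_sub_right
      obtain ⟨F, hF, hxF⟩ := hst x hx
      rw [← hc F hF]
      have hex : ∀ G ∈ Q.filter (fun G => x ∈ G), ∃ y, y ∈ G ∧ y ∈ F := by
        intro G hG
        rw [mem_filter] at hG
        obtain ⟨y, hy⟩ := hm G hG.1 F hF (by rintro rfl; exact hxF hG.2)
        exact ⟨y, mem_inter.1 hy⟩
      have : Nonempty V := ⟨x⟩
      choose! y hy1 hy2 using hex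
      refine card_le_card_of_injOn y (fun G hG => hy2 G hG) ?_
      intro G hG G' hG' h
      have hG1 := mem_filter.1 (mem_coe.1 hG)
      have hG2 := mem_filter.1 (mem_coe.1 hG')
      refine hl.eq (hQ hG1.1) (hQ hG2.1) hG1.2 hG2.2 (hy1 G hG) (h ▸ hy1 G' hG') ?_
      rintro rfl
      exact hxF (hy2 G hG)

/-- the general bound -/
theorem main {H : Finset (Finset V)} (hl : Lin H) (w : Finset V → ℝ) (N : ℝ) (hN0 : 0 ≤ N)
    (hN : ∀ E ∈ H, (nbg H E : ℝ) + ((nbe H E : ℝ) + KK H E + 1) / 2 ≤ N) :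
    ∃ M ⊆ H, (∀ E ∈ M, ∀ F ∈ M, E ≠ F → Disjoint E F) ∧
      ∑ E ∈ H, w E ≤ N * ∑ E ∈ M, w E := by
  classical
  have hcard : ∀ E : Finset V, E.card ≤ Fintype.card V := fun E => card_le_univ E
  obtain ⟨S, hS, hw⟩ := weighted (α := {E // E ∈ H})
    (adj := fun E F => E ≠ F ∧ (E.1 ∩ F.1).Nonempty)
    (fun E F h => ⟨h.1.symm, by rw [inter_comm]; exact h.2⟩) (fun E h => h.1 rfl)
    (fun E => Fintype.card V - E.1.card) (fun E => KK H E.1) (by
      intro E Q hE hlv hcl
      have h1 : (Q.image Subtype.val).card = Q.card :=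
        card_image_of_injective _ Subtype.val_injective
      rw [← h1]
      apply clique hl
      · intro F hF
        obtain ⟨G, _, rfl⟩ := mem_image.1 hF
        exact G.2
      · exact mem_image_of_mem _ hE
      · intro F hF
        obtain ⟨G, hG, rfl⟩ := mem_image.1 hF
        have h2 := hlv G hG
        have h3 := hcard G.1
        have h4 := hcard E.1
        omega
      · intro F hF G hG hne
        obtain ⟨F', hF', rfl⟩ := mem_image.1 hF
        obtain ⟨G', hG', rfl⟩ := mem_image.1 hG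
        exact (hcl F' hF' G' hG' (fun h => hne (by rw [h]))).2) (fun E => w E.1) N hN0 (by
      intro E
      refine le_trans ?_ (hN E.1 E.2)
      have h4 := hcard E.1
      have ha : ((univ.filter (fun F : {E // E ∈ H} => (E ≠ F ∧ (E.1 ∩ F.1).Nonempty) ∧
          Fintype.card V - F.1.card < Fintype.card V - E.1.card)).card : ℝ) ≤ nbg H E.1 := by
        norm_cast
        unfold nbg
        refine card_le_card_of_injOn Subtype.val ?_ (Subtype.val_injective.injOn)
        intro F hF
        have hF' := (mem_filter.1 (mem_coe.1 hF)).2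
        have h3 := hcard F.1
        rw [mem_coe, mem_filter]
        exact ⟨F.2, fun h => hF'.1.1 (Subtype.ext h.symm), hF'.1.2, by omega⟩
      have hb : ((univ.filter (fun F : {E // E ∈ H} => (E ≠ F ∧ (E.1 ∩ F.1).Nonempty) ∧
          Fintype.card V - F.1.card = Fintype.card V - E.1.card)).card : ℝ) ≤ nbe H E.1 := by
        norm_cast
        unfold nbe
        refine card_le_card_of_injOn Subtype.val ?_ (Subtype.val_injective.injOn)
        intro F hF
        have hF' := (mem_filter.1 (mem_coe.1 hF)).2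
        have h3 := hcard F.1
        rw [mem_coe, mem_filter]
        exact ⟨F.2, fun h => hF'.1.1 (Subtype.ext h.symm), hF'.1.2, by omega⟩
      have h5 := add_le_add ha (div_le_div_of_nonneg_right
        (add_le_add_left (add_le_add_left hb (KK H E.1 : ℝ)) 1) (zero_le_two))
      convert h5)
  refine ⟨S.image Subtype.val, ?_, ?_, ?_⟩
  · intro F hF
    obtain ⟨G, _, rfl⟩ := mem_image.1 hF
    exact G.2
  · intro F hF G hG hne
    obtain ⟨F', hF', rfl⟩ := mem_image.1 hF
    obtain ⟨G', hG', rfl⟩ := mem_image.1 hG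
    rw [disjoint_iff_inter_eq_empty, ← not_nonempty_iff_eq_empty]
    intro h
    exact hS F' hF' G' hG' ⟨fun h' => hne (by rw [h']), h⟩
  · rw [Finset.sum_image (fun x _ y _ h => Subtype.ext h), ← Finset.sum_coe_sort H]
    exact hw

end Pool.Agent.H492.BF
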