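import Pool.Agent.H492.BF.B

/-! Linear hypergraphs: numerical consequences. -/

set_option autoImplicit false
set_option linter.unusedSectionVars false

namespace Pool.Agent.H492.BF

open Finset

lemma num1 {k D P R rs a b K : ℝ} (hk : 2 ≤ k) (h1 : b + k ≤ P) (h2 : a ≤ R)
    (h3 : k * R + (k - 1) * P ≤ k * D)
    (hK : K ≤ rs ∨ (K ≤ b + 1 ∧ P ≤ k ^ 2) ∨ (K ≤ k * (k - 1) + 1 ∧ k ^ 2 ≤ P)) :
    a + (b + K + 1) / 2 ≤ D + 1 ∨
      2 * (k * (a + (b + K + 1) / 2)) ≤ 2 * (k * D) - (k - 2) * P - k ^ 2 + k * rs + k := by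
  have hk0 : 0 < k := by linarith
  have ha : k * a ≤ k * R := mul_le_mul_of_nonneg_left h2 hk0.le
  have hb : k * b ≤ k * (P - k) := mul_le_mul_of_nonneg_left (by linarith) hk0.le
  rcases hK with hK | ⟨hK, hP⟩ | ⟨hK, hP⟩
  · right
    have hK' : k * K ≤ k * rs := mul_le_mul_of_nonneg_left hK hk0.le
    nlinarith
  · left
    have hK' : k * K ≤ k * (b + 1) := mul_le_mul_of_nonneg_left hK hk0.le
    have : k * (a + (b + K + 1) / 2) ≤ k * (D + 1) := by nlinarith
    exact le_of_mul_le_mul_left this hk0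
  · left
    have hK' : k * K ≤ k * (k * (k - 1) + 1) := mul_le_mul_of_nonneg_left hK hk0.le
    have hP' : (k - 2) * k ^ 2 ≤ (k - 2) * P := mul_le_mul_of_nonneg_left hP (by linarith)
    have : k * (a + (b + K + 1) / 2) ≤ k * (D + 1) := by nlinarith
    exact le_of_mul_le_mul_left this hk0

lemma num2 {k D P rs a b K : ℝ} (hk : 3 ≤ k) (h1 : b + k ≤ P) (h2 : a ≤ 0)
    (h3 : (k - 1) * P ≤ k * D) (h4 : (k - 1) * rs ≤ D) (hD : 0 ≤ D)
    (hK : K ≤ rs ∨ (K ≤ b + 1 ∧ P ≤ k ^ 2) ∨ (K ≤ k * (k - 1) + 1 ∧ k ^ 2 ≤ P)) :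
    a + (b + K + 1) / 2 ≤ D + 1 := by
  have hk0 : 0 < k - 1 := by linarith
  have hb : (k - 1) * b ≤ (k - 1) * (P - k) := mul_le_mul_of_nonneg_left (by linarith) hk0.le
  rcases hK with hK | ⟨hK, hP⟩ | ⟨hK, hP⟩
  · have hK' : (k - 1) * K ≤ (k - 1) * rs := mul_le_mul_of_nonneg_left hK hk0.le
    have h5 : 0 ≤ (k - 3) * D := mul_nonneg (by linarith) hD
    have : (k - 1) * ((b + K + 1) / 2) ≤ (k - 1) * (D + 1) := by nlinarith
    have := le_of_mul_le_mul_left this hk0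
    linarith
  · have h5 : P - k ≤ D := by
      rcases le_total (k * (k - 1)) D with h | h
      · nlinarith
      · have : (k - 1) * (P - k) ≤ (k - 1) * D := by nlinarith
        exact le_of_mul_le_mul_left this hk0
    linarith
  · have h5 : (k - 1) * k ^ 2 ≤ (k - 1) * P := mul_le_mul_of_nonneg_left hP hk0.le
    have h6 : k * (k * (k - 1)) ≤ k * D := by nlinarith
    have h7 : k * (k - 1) ≤ D := le_of_mul_le_mul_left h6 (by linarith)
    have h8 : (k - 2) * (k * (k - 1)) ≤ (k - 2) * D :=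
      mul_le_mul_of_nonneg_left h7 (by linarith)
    have h9 : (k - 1) * (P + k ^ 2 - 2 * k) ≤ (k - 1) * (2 * D) := by nlinarith
    have h10 := le_of_mul_le_mul_left h9 hk0
    nlinarith

lemma num3 {k0 k D rs T : ℝ} (h0 : 2 ≤ k0) (hk : k0 ≤ k) (hD : 0 ≤ D) (h4 : (k - 1) * rs ≤ D)
    (hT : k * T ≤ k * D + rs - (k - 1) ^ 2) :
    T ≤ D + (D / (k0 - 1) - (k0 - 1) ^ 2) / k0 := by
  have hk1 : 0 < k - 1 := by linarith
  have hk2 : 0 < k := by linarith
  have hk3 : 0 < k0 - 1 := by linarith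
  have hk4 : 0 < k0 := by linarith
  have h1 : rs ≤ D / (k - 1) := by
    rw [le_div_iff₀ hk1]
    linarith
  have h2 : T ≤ D + (D / (k - 1) - (k - 1) ^ 2) / k := by
    have : T ≤ (k * D + D / (k - 1) - (k - 1) ^ 2) / k := by
      rw [le_div_iff₀ hk2]
      linarith
    refine this.trans (le_of_eq ?_)
    field_simp
    ring
  refine h2.trans ?_
  have h3 : D / (k - 1) / k ≤ D / (k0 - 1) / k0 := by
    rw [div_div, div_div]
    apply div_le_div_of_nonneg_left hD (by positivity)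
    nlinarith
  have h5 : (k0 - 1) ^ 2 / k0 ≤ (k - 1) ^ 2 / k := by
    rw [div_le_div_iff₀ hk4 hk2]
    have : 0 ≤ (k - k0) * (k * k0 - 1) := mul_nonneg (by linarith) (by nlinarith)
    nlinarith
  rw [sub_div, sub_div]
  linarith

variable {V : Type} [Fintype V] [DecidableEq V]

lemma KK_cases {H : Finset (Finset V)} {E : Finset V} (hE1 : 1 ≤ E.card) (P : ℝ) :
    (KK H E : ℝ) ≤ ((E.sup (rho H E.card) : ℕ) : ℝ) ∨
    ((KK H E : ℝ) ≤ (nbe H E : ℝ) + 1 ∧ P ≤ (E.card : ℝ) ^ 2) ∨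
    ((KK H E : ℝ) ≤ (E.card : ℝ) * ((E.card : ℝ) - 1) + 1 ∧ (E.card : ℝ) ^ 2 ≤ P) := by
  have hc : ((E.card - 1 : ℕ) : ℝ) = (E.card : ℝ) - 1 := by
    rw [Nat.cast_sub hE1]
    simp
  unfold KK
  rcases le_total (min (nbe H E + 1) (E.card * (E.card - 1) + 1)) (E.sup (rho H E.card)) with h | h
  · left
    rw [max_eq_left h]
  · right
    rw [max_eq_right h]
    rcases le_total P ((E.card : ℝ) ^ 2) with h' | h'
    · left
      refine ⟨?_, h'⟩
      exact_mod_cast min_le_left _ _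
    · right
      refine ⟨?_, h'⟩
      rw [← hc]
      exact_mod_cast min_le_right _ _

lemma sup_le_sum {H : Finset (Finset V)} {E : Finset V} (hE : E ∈ H) (hE1 : 1 ≤ E.card) :
    E.sup (rho H E.card) + (E.card - 1) ≤ ∑ v ∈ E, rho H E.card v := by
  obtain ⟨x, hx, hxs⟩ := Finset.exists_mem_eq_sup E (card_pos.1 hE1) (rho H E.card)
  rw [hxs, ← Finset.add_sum_erase E _ hx]
  apply Nat.add_le_add_left
  rw [← card_erase_of_mem hx, card_eq_sum_ones]
  apply Finset.sum_le_sum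
  intro v hv
  exact rho_pos hE (mem_of_mem_erase hv)

lemma sup_le_D {H : Finset (Finset V)} (hl : Lin H) {D : ℕ} (hD : Deg H D) {E : Finset V}
    (hE1 : 1 ≤ E.card) : ((E.card : ℝ) - 1) * ((E.sup (rho H E.card) : ℕ) : ℝ) ≤ D := by
  obtain ⟨x, hx, hxs⟩ := Finset.exists_mem_eq_sup E (card_pos.1 hE1) (rho H E.card)
  rw [hxs]
  have h := deg2 hl hD E.card x
  have h' : (E.card - 1) * rho H E.card x ≤ D := by omega
  have hc : ((E.card - 1 : ℕ) : ℝ) = (E.card : ℝ) - 1 := by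
    rw [Nat.cast_sub hE1]
    simp
  rw [← hc]
  exact_mod_cast h'

lemma sum_deg {H : Finset (Finset V)} (hl : Lin H) {D : ℕ} (hD : Deg H D) {E : Finset V}
    (hE1 : 1 ≤ E.card) :
    (E.card : ℝ) * ((∑ v ∈ E, rgt H E.card v : ℕ) : ℝ) +
      ((E.card : ℝ) - 1) * ((∑ v ∈ E, rho H E.card v : ℕ) : ℝ) ≤ E.card * D := by
  have h : E.card * (∑ v ∈ E, rgt H E.card v) + (E.card - 1) * (∑ v ∈ E, rho H E.card v) ≤
      E.card * D := by
    rw [Finset.mul_sum, Finset.mul_sum, ← Finset.sum_add_distrib]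
    refine (Finset.sum_le_sum (fun v _ => deg2 hl hD E.card v)).trans (le_of_eq ?_)
    rw [Finset.sum_const, smul_eq_mul]
  have hc : ((E.card - 1 : ℕ) : ℝ) = (E.card : ℝ) - 1 := by
    rw [Nat.cast_sub hE1]
    simp
  rw [← hc]
  exact_mod_cast h

lemma small {H : Finset (Finset V)} (hl : Lin H) {D : ℕ} (hD : Deg H D) {E : Finset V}
    (hE : E ∈ H) (hE1 : E.card ≤ 1) :
    (nbg H E : ℝ) + ((nbe H E : ℝ) + KK H E + 1) / 2 ≤ D + 1 := by
  have hb : nbe H E = 0 := by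
    unfold nbe
    rw [card_eq_zero, filter_eq_empty_iff]
    rintro F _ ⟨hne, ⟨x, hx⟩, hc⟩
    rw [mem_inter] at hx
    apply hne
    have h1 : E.card = 1 := le_antisymm hE1 (card_pos.2 ⟨x, hx.1⟩)
    obtain ⟨y, hy⟩ := card_eq_one.1 h1
    obtain ⟨z, hz⟩ := card_eq_one.1 (hc.trans h1)
    rw [hy, hz, mem_singleton, mem_singleton] at hx
    rw [hy, hz, ← hx.1, ← hx.2]
  have ha : nbg H E ≤ D := by
    refine nbg_le.trans ?_
    rcases Nat.le_one_iff_eq_zero_or_eq_one.1 hE1 with h | h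
    · rw [card_eq_zero.1 h]
      simp
    · obtain ⟨x, hx⟩ := card_eq_one.1 h
      have h2 := deg2 hl hD 1 x
      rw [hx, Finset.sum_singleton, card_singleton]
      omega
  have hK : KK H E ≤ 1 := by
    unfold KK
    refine max_le ?_ ?_
    · refine Finset.sup_le ?_
      intro v hv
      have h1 : E.card = 1 := le_antisymm hE1 (card_pos.2 ⟨v, hv⟩)
      rw [h1]
      unfold rho
      rw [card_le_one]
      intro F hF G hG
      rw [mem_filter] at hF hG
      obtain ⟨y, hy⟩ := card_eq_one.1 hF.2.2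
      obtain ⟨z, hz⟩ := card_eq_one.1 hG.2.2
      have h3 := hF.2.1
      have h4 := hG.2.1
      rw [hy, mem_singleton] at h3
      rw [hz, mem_singleton] at h4
      rw [hy, hz, ← h3, ← h4]
    · refine (min_le_left _ _).trans ?_
      rw [hb]
  have ha' : (nbg H E : ℝ) ≤ D := by exact_mod_cast ha
  have hK' : (KK H E : ℝ) ≤ 1 := by exact_mod_cast hK
  rw [hb]
  push_cast
  linarith

lemma large {H : Finset (Finset V)} (hl : Lin H) {D : ℕ} (hD : Deg H D) {E : Finset V}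
    (hE : E ∈ H) (hE1 : 2 ≤ E.card) :
    (nbg H E : ℝ) + ((nbe H E : ℝ) + KK H E + 1) / 2 ≤ D + 1 ∨
      2 * ((E.card : ℝ) * ((nbg H E : ℝ) + ((nbe H E : ℝ) + KK H E + 1) / 2)) ≤
        2 * (E.card * D) - ((E.card : ℝ) - 2) * ((∑ v ∈ E, rho H E.card v : ℕ) : ℝ) -
          (E.card : ℝ) ^ 2 + (E.card : ℝ) * ((E.sup (rho H E.card) : ℕ) : ℝ) + E.card := by
  refine num1 (R := ((∑ v ∈ E, rgt H E.card v : ℕ) : ℝ)) (by exact_mod_cast hE1)
    (by exact_mod_cast nbe_le hE) (by exact_mod_cast (nbg_le (H := H) (E := E))) (sum_deg hl hD (by omega))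
    (KK_cases (by omega) _)

/-- hypergraphs without edges of size `2, …, k - 1` -/
theorem partB {H : Finset (Finset V)} (hl : Lin H) {D : ℕ} (hD : Deg H D) (k : ℕ) (hk : 2 ≤ k)
    (hH : ∀ E ∈ H, E.card ≤ 1 ∨ k ≤ E.card) (w : Finset V → ℝ) :
    ∃ M ⊆ H, (∀ E ∈ M, ∀ F ∈ M, E ≠ F → Disjoint E F) ∧
      ∑ E ∈ H, w E ≤
        max ((D : ℝ) + 1) (D + ((D : ℝ) / (k - 1) - (k - 1) ^ 2) / k) * ∑ E ∈ M, w E := by
  apply main hl w
  · exact le_trans (by positivity) (le_max_left _ _)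
  · intro E hE
    rcases hH E hE with h | h
    · exact (small hl hD hE h).trans (le_max_left _ _)
    · rcases large hl hD hE (by omega) with h1 | h1
      · exact h1.trans (le_max_left _ _)
      · refine le_trans ?_ (le_max_right _ _)
        have hk' : (2 : ℝ) ≤ k := by exact_mod_cast hk
        have hkE : (k : ℝ) ≤ E.card := by exact_mod_cast h
        have h2 := sup_le_sum hE (show 1 ≤ E.card by omega)
        have hc : ((E.card - 1 : ℕ) : ℝ) = (E.card : ℝ) - 1 := by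
          rw [Nat.cast_sub (by omega)]
          simp
        have h3 : ((E.sup (rho H E.card) : ℕ) : ℝ) + ((E.card : ℝ) - 1) ≤
            ((∑ v ∈ E, rho H E.card v : ℕ) : ℝ) := by
          rw [← hc]
          exact_mod_cast h2
        refine num3 hk' hkE (Nat.cast_nonneg D) (sup_le_D hl hD (show 1 ≤ E.card by omega)) ?_
        have h4 : ((E.card : ℝ) - 2) * (((E.sup (rho H E.card) : ℕ) : ℝ) + ((E.card : ℝ) - 1)) ≤
            ((E.card : ℝ) - 2) * ((∑ v ∈ E, rho H E.card v : ℕ) : ℝ) :=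
          mul_le_mul_of_nonneg_left h3 (by linarith)
        nlinarith

/-- balanced hypergraphs -/
theorem partC {H : Finset (Finset V)} (hl : Lin H) {D : ℕ} (hD : Deg H D)
    (hH : ∀ E ∈ H, 2 ≤ E.card → ∀ x ∈ E, (E.card : ℝ) * rho H E.card x ≤
      ((E.card : ℝ) - 2) * (∑ v ∈ E, (rho H E.card v : ℝ)) + E.card * (E.card + 1))
    (w : Finset V → ℝ) :
    ∃ M ⊆ H, (∀ E ∈ M, ∀ F ∈ M, E ≠ F → Disjoint E F) ∧
      ∑ E ∈ H, w E ≤ ((D : ℝ) + 1) * ∑ E ∈ M, w E := by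
  apply main hl w
  · positivity
  · intro E hE
    rcases le_or_gt E.card 1 with h | h
    · exact small hl hD hE h
    · rcases large hl hD hE h with h1 | h1
      · exact h1
      · obtain ⟨x, hx, hxs⟩ := Finset.exists_mem_eq_sup E (card_pos.1 (by omega))
          (rho H E.card)
        have h2 := hH E hE h x hx
        rw [← hxs] at h2
        push_cast at h1
        have hk : (0 : ℝ) < E.card := by exact_mod_cast (show 0 < E.card by omega)
        have h3 : (E.card : ℝ) * ((nbg H E : ℝ) + ((nbe H E : ℝ) + KK H E + 1) / 2) ≤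
            E.card * ((D : ℝ) + 1) := by nlinarith
        exact le_of_mul_le_mul_left h3 hk

/-- uniform hypergraphs -/
theorem partA {H : Finset (Finset V)} (hl : Lin H) {D : ℕ} (hD : Deg H D) (k : ℕ) (hk : 3 ≤ k)
    (hH : ∀ E ∈ H, E.card = k) (w : Finset V → ℝ) :
    ∃ M ⊆ H, (∀ E ∈ M, ∀ F ∈ M, E ≠ F → Disjoint E F) ∧
      ∑ E ∈ H, w E ≤ ((D : ℝ) + 1) * ∑ E ∈ M, w E := by
  apply main hl w
  · positivity
  · intro E hE
    have hEk := hH E hE
    have ha : nbg H E = 0 := by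
      unfold nbg
      rw [card_eq_zero, filter_eq_empty_iff]
      rintro F hF ⟨_, _, h⟩
      rw [hEk, hH F hF] at h
      exact lt_irrefl _ h
    have h1 := sum_deg hl hD (show 1 ≤ E.card by omega)
    have h2 : (0 : ℝ) ≤ (E.card : ℝ) * ((∑ v ∈ E, rgt H E.card v : ℕ) : ℝ) := by positivity
    refine num2 (k := (E.card : ℝ)) (P := ((∑ v ∈ E, rho H E.card v : ℕ) : ℝ))
      (rs := ((E.sup (rho H E.card) : ℕ) : ℝ)) ?_ (by exact_mod_cast nbe_le hE)
      (by rw [ha]; simp) (by linarith) (sup_le_D hl hD (by omega)) (Nat.cast_nonneg D)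
      (KK_cases (by omega) _)
    rw [hEk]
    exact_mod_cast hk

end Pool.Agent.H492.BF
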