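import Pool.Agent.H249R2.PM.Round

/-! Weighted matchings in graphs: a local form of the fractional version of the theorem of Vizing,
from the perfect matching polytope of the doubled graph. -/

set_option autoImplicit false
set_option linter.unusedSectionVars false

namespace Pool.Agent.H492.BF

open Finset
open Pool.Agent.H249R2.PM

variable {V : Type} [Fintype V] [DecidableEq V]

/-- first end -/
def ea : (V × V × Bool) ⊕ V → V × Bool
  | .inl p => (p.1, p.2.2)
  | .inr v => (v, false)

/-- second end -/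
def eb : (V × V × Bool) ⊕ V → V × Bool
  | .inl p => (p.2.1, p.2.2)
  | .inr v => (v, true)

/-- the fractional perfect matching of the doubled graph -/
noncomputable def xx (ζ : V → V → ℝ) : (V × V × Bool) ⊕ V → ℝ
  | .inl p => ζ p.1 p.2.1 / 2
  | .inr v => 1 - ∑ y, ζ v y

/-- the conditions on the values of the edges -/
structure Zc (ζ : V → V → ℝ) : Prop where
  nn : ∀ x y, 0 ≤ ζ x y
  sym : ∀ x y, ζ x y = ζ y x
  diag : ∀ x, ζ x x = 0
  loc : ∀ x, ∀ B : Finset V, x ∈ B → ∑ y ∈ B, ζ x y ≤ 1 - 1 / (B.card : ℝ)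

lemma Zc.le_one {ζ : V → V → ℝ} (h : Zc ζ) (x : V) : 0 ≤ 1 - ∑ y, ζ x y := by
  have h1 := h.loc x univ (mem_univ x)
  have h2 : (0 : ℝ) ≤ 1 / ((univ : Finset V).card : ℝ) := by positivity
  linarith

lemma core {ζ : V → V → ℝ} (h : Zc ζ) (P Q : V → Prop) [DecidablePred P] [DecidablePred Q]
    (hv : ∃ v, P v ∧ ¬ Q v) :
    1 ≤ ∑ x, ∑ y, ((if ¬ (P x ↔ P y) then ζ x y / 2 else 0) +
      (if ¬ (Q x ↔ Q y) then ζ x y / 2 else 0)) +
        ∑ v, (if ¬ (P v ↔ Q v) then 1 - ∑ y, ζ v y else 0) := by
  set B := univ.filter (fun v => P v ∧ ¬ Q v) with hB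
  have hm : ∀ x, x ∈ B ↔ P x ∧ ¬ Q x := by intro x; rw [hB, mem_filter]; simp
  have hne : B.Nonempty := by
    obtain ⟨v, hv⟩ := hv
    exact ⟨v, (hm v).2 hv⟩
  have h1 : ∀ x y, (if x ∈ B ∧ y ∉ B then ζ x y / 2 else 0) +
      (if y ∈ B ∧ x ∉ B then ζ x y / 2 else 0) ≤ (if ¬ (P x ↔ P y) then ζ x y / 2 else 0) +
      (if ¬ (Q x ↔ Q y) then ζ x y / 2 else 0) := by
    intro x y
    have h0 := h.nn x y
    simp only [hm]
    by_cases hPx : P x <;> by_cases hPy : P y <;> by_cases hQx : Q x <;> by_cases hQy : Q y <;>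
      simp [hPx, hPy, hQx, hQy] <;> linarith
  have h2 : ∑ x, ∑ y, ((if x ∈ B ∧ y ∉ B then ζ x y / 2 else 0) +
      (if y ∈ B ∧ x ∉ B then ζ x y / 2 else 0)) =
      ∑ x ∈ B, ∑ y ∈ univ.filter (fun y => y ∉ B), ζ x y := by
    have h3 : ∑ x, ∑ y, (if x ∈ B ∧ y ∉ B then ζ x y / 2 else 0) =
        ∑ x ∈ B, ∑ y ∈ univ.filter (fun y => y ∉ B), ζ x y / 2 := by
      rw [← Finset.sum_filter_add_sum_filter_not univ (fun x => x ∈ B)]
      have e1 : univ.filter (fun x => x ∈ B) = B := by ext; simp
      rw [e1]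
      have e2 : ∑ x ∈ univ.filter (fun x => ¬ x ∈ B), ∑ y, (if x ∈ B ∧ y ∉ B then ζ x y / 2 else 0)
          = 0 := by
        apply Finset.sum_eq_zero
        intro x hx
        apply Finset.sum_eq_zero
        intro y _
        rw [if_neg (fun h' => (mem_filter.1 hx).2 h'.1)]
      rw [e2, add_zero]
      apply Finset.sum_congr rfl
      intro x hx
      rw [Finset.sum_filter]
      apply Finset.sum_congr rfl
      intro y _
      simp [hx]
    have h4 : ∑ x, ∑ y, (if y ∈ B ∧ x ∉ B then ζ x y / 2 else 0) =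
        ∑ x, ∑ y, (if x ∈ B ∧ y ∉ B then ζ x y / 2 else 0) := by
      rw [Finset.sum_comm]
      apply Finset.sum_congr rfl
      intro x _
      apply Finset.sum_congr rfl
      intro y _
      rw [h.sym y x]
    simp only [Finset.sum_add_distrib]
    rw [h4, h3, ← Finset.sum_add_distrib]
    apply Finset.sum_congr rfl
    intro x _
    rw [← Finset.sum_add_distrib]
    apply Finset.sum_congr rfl
    intro y _
    ring
  have h5 : ∑ v ∈ B, (1 - ∑ y, ζ v y) ≤ ∑ v, (if ¬ (P v ↔ Q v) then 1 - ∑ y, ζ v y else 0) := by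
    rw [← Finset.sum_filter]
    apply Finset.sum_le_sum_of_subset_of_nonneg
    · intro v hv
      rw [mem_filter]
      have := (hm v).1 hv
      exact ⟨mem_univ v, fun h' => this.2 (h'.1 this.1)⟩
    · intro v _ _
      exact h.le_one v
  have h6 : ∑ x ∈ B, ∑ y ∈ univ.filter (fun y => y ∉ B), ζ x y ≤
      ∑ x, ∑ y, ((if ¬ (P x ↔ P y) then ζ x y / 2 else 0) +
      (if ¬ (Q x ↔ Q y) then ζ x y / 2 else 0)) := by
    rw [← h2]
    exact Finset.sum_le_sum (fun x _ => Finset.sum_le_sum (fun y _ => h1 x y))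
  have h7 : (1 : ℝ) ≤ ∑ x ∈ B, ((∑ y ∈ univ.filter (fun y => y ∉ B), ζ x y) +
      (1 - ∑ y, ζ x y)) := by
    have hc : (0 : ℝ) < B.card := by exact_mod_cast card_pos.2 hne
    have h8 : ∀ x ∈ B, 1 / (B.card : ℝ) ≤ (∑ y ∈ univ.filter (fun y => y ∉ B), ζ x y) +
      (1 - ∑ y, ζ x y) := by
      intro x hx
      have h9 := h.loc x B hx
      have h10 := Finset.sum_filter_add_sum_filter_not univ (fun y => y ∈ B) (fun y => ζ x y)
      have e1 : univ.filter (fun x => x ∈ B) = B := by ext; simp
      rw [e1] at h10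
      linarith
    have h9 := Finset.sum_le_sum h8
    rw [Finset.sum_const, nsmul_eq_mul, mul_one_div_cancel hc.ne'] at h9
    exact h9
  rw [Finset.sum_add_distrib] at h7
  linarith

lemma cut_formula (ζ : V → V → ℝ) (S : Finset (V × Bool)) :
    cut ea eb (xx ζ) S = ∑ x, ∑ y, ((if ¬ ((x, false) ∈ S ↔ (y, false) ∈ S) then ζ x y / 2 else 0) +
      (if ¬ ((x, true) ∈ S ↔ (y, true) ∈ S) then ζ x y / 2 else 0)) +
        ∑ v, (if ¬ ((v, false) ∈ S ↔ (v, true) ∈ S) then 1 - ∑ y, ζ v y else 0) := by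
  rw [cut_eq_ite, Fintype.sum_sum_type]
  congr 1
  rw [Fintype.sum_prod_type]
  apply Finset.sum_congr rfl
  intro x _
  rw [Fintype.sum_prod_type]
  apply Finset.sum_congr rfl
  intro y _
  rw [Fintype.sum_bool, add_comm]
  rfl

lemma fr {ζ : V → V → ℝ} (h : Zc ζ) : Fr ea eb (xx ζ) := by
  refine ⟨?_, ?_, ?_⟩
  · rintro (p | v)
    · exact div_nonneg (h.nn _ _) zero_le_two
    · exact h.le_one v
  · rintro ⟨v, i⟩
    rw [cut_formula]
    have h1 : ∀ x y, (if ¬ (x = v ↔ y = v) then ζ x y / 2 else 0) =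
        (if x = v then ζ x y / 2 else 0) + (if y = v then ζ x y / 2 else 0) := by
      intro x y
      by_cases hx : x = v <;> by_cases hy : y = v <;> simp [hx, hy]
      · exact (h.diag v).symm
    have h2 : ∑ x, ∑ y, (if ¬ (x = v ↔ y = v) then ζ x y / 2 else 0) = ∑ y, ζ v y := by
      simp only [h1, Finset.sum_add_distrib]
      have e1 : ∑ x, ∑ y, (if x = v then ζ x y / 2 else 0) = ∑ y, ζ v y / 2 := by
        rw [Finset.sum_comm]
        apply Finset.sum_congr rfl
        intro y _
        rw [Finset.sum_ite_eq']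
        simp
      have e2 : ∑ x, ∑ y, (if y = v then ζ x y / 2 else 0) = ∑ y, ζ v y / 2 := by
        apply Finset.sum_congr rfl
        intro x _
        rw [Finset.sum_ite_eq', h.sym x v]
        simp
      rw [e1, e2, ← Finset.sum_add_distrib]
      apply Finset.sum_congr rfl
      intro y _
      ring
    cases i
    · simp only [mem_singleton, Prod.mk.injEq, and_true, reduceCtorEq, and_false, iff_self,
        not_true, if_false, add_zero, iff_false, not_not]
      rw [h2, Finset.sum_ite_eq']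
      simp
    · simp only [mem_singleton, Prod.mk.injEq, and_true, reduceCtorEq, and_false, iff_self,
        not_true, if_false, zero_add, false_iff, not_not]
      rw [h2, Finset.sum_ite_eq']
      simp
  · intro S hS
    rw [cut_formula]
    by_cases hv : ∃ v, (v, false) ∈ S ∧ ¬ (v, true) ∈ S
    · exact core h (fun v => (v, false) ∈ S) (fun v => (v, true) ∈ S) hv
    · by_cases hv' : ∃ v, (v, true) ∈ S ∧ ¬ (v, false) ∈ S
      · have := core h (fun v => (v, true) ∈ S) (fun v => (v, false) ∈ S) hv'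
        refine this.trans (le_of_eq ?_)
        congr 1
        · apply Finset.sum_congr rfl
          intro x _
          apply Finset.sum_congr rfl
          intro y _
          rw [add_comm]
        · apply Finset.sum_congr rfl
          intro v _
          congr 1
          rw [iff_comm]
      · exfalso
        push Not at hv hv'
        have h1 : S = (univ.filter (fun v => (v, false) ∈ S)) ×ˢ (univ : Finset Bool) := by
          ext ⟨v, b⟩
          rw [mem_product, mem_filter]
          cases b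
          · simp
          · simp only [mem_univ, true_and, and_true]
            exact ⟨fun h => hv' v h, fun h => hv v h⟩
        rw [h1, card_product, Nat.odd_mul] at hS
        exact absurd hS.2 (by rw [Finset.card_univ, Fintype.card_bool]; decide)

end Pool.Agent.H492.BF
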