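import Pool.Agent.H492.BF.D

/-! A local form of the fractional version of the theorem of Vizing, with singletons. -/

set_option autoImplicit false
set_option linter.unusedSectionVars false

namespace Pool.Agent.H492.BF

open Finset
open Pool.Agent.H249R2.PM

variable {V : Type} [Fintype V] [DecidableEq V]

/-- number of two-element sets through a vertex -/
def dd (G : Finset (Finset V)) (x : V) : ℕ := (G.filter (fun e => x ∈ e ∧ e.card = 2)).card

/-- the values on ordered pairs -/
noncomputable def zz (G : Finset (Finset V)) (z : Finset V → ℝ) (x y : V) : ℝ :=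
  if x ≠ y ∧ {x, y} ∈ G then z {x, y} else 0

/-- the underlying set of an edge of the doubled graph -/
def st : (V × V × Bool) ⊕ V → Finset V
  | .inl p => {p.1, p.2.1}
  | .inr v => {v}

lemma zz_sum {G : Finset (Finset V)} {z : Finset V → ℝ}
    (hz : ∀ e ∈ G, ∀ x ∈ e, z e ≤ 1 / ((dd G x : ℝ) + 1)) (x : V) (B : Finset V) :
    ∑ y ∈ B, zz G z x y ≤
      ((B.filter (fun y => x ≠ y ∧ {x, y} ∈ G)).card : ℝ) / ((dd G x : ℝ) + 1) := by
  unfold zz
  rw [← Finset.sum_filter]
  refine (Finset.sum_le_sum (g := fun _ => 1 / ((dd G x : ℝ) + 1)) ?_).trans (le_of_eq ?_)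
  · intro y hy
    exact hz _ (mem_filter.1 hy).2.2 x (by simp)
  · rw [Finset.sum_const, nsmul_eq_mul]
    ring

lemma cnt_le {G : Finset (Finset V)} (x : V) (B : Finset V) :
    (B.filter (fun y => x ≠ y ∧ {x, y} ∈ G)).card ≤ dd G x := by
  unfold dd
  refine card_le_card_of_injOn (fun y => {x, y}) ?_ ?_
  · intro y hy
    have h := (mem_filter.1 (mem_coe.1 hy)).2
    rw [mem_coe, mem_filter]
    exact ⟨h.2, by simp, card_pair h.1⟩
  · intro y hy y' hy' h
    have h1 := (mem_filter.1 (mem_coe.1 hy)).2.1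
    have h2 : y ∈ ({x, y'} : Finset V) := by
      have : y ∈ ({x, y} : Finset V) := by simp
      simpa [h] using (show y ∈ ({x, y'} : Finset V) from (by
        have h3 : ({x, y} : Finset V) = {x, y'} := h
        rw [← h3]; exact this))
    rw [mem_insert, mem_singleton] at h2
    rcases h2 with h2 | h2
    · exact absurd h2.symm h1
    · exact h2

lemma zz_zc {G : Finset (Finset V)} {z : Finset V → ℝ} (hz0 : ∀ e, 0 ≤ z e)
    (hz : ∀ e ∈ G, ∀ x ∈ e, z e ≤ 1 / ((dd G x : ℝ) + 1)) : Zc (zz G z) := by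
  refine ⟨?_, ?_, ?_, ?_⟩
  · intro x y
    unfold zz
    split_ifs
    · exact hz0 _
    · exact le_rfl
  · intro x y
    unfold zz
    rw [pair_comm x y]
    exact if_congr (by rw [ne_comm]) rfl rfl
  · intro x
    unfold zz
    simp
  · intro x B hx
    refine (zz_sum hz x B).trans ?_
    have hB : (0 : ℝ) < B.card := by exact_mod_cast card_pos.2 ⟨x, hx⟩
    have hd : (0 : ℝ) < (dd G x : ℝ) + 1 := by positivity
    have h1 : ((B.filter (fun y => x ≠ y ∧ {x, y} ∈ G)).card : ℝ) ≤ dd G x := by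
      exact_mod_cast cnt_le x B
    have h2 : ((B.filter (fun y => x ≠ y ∧ {x, y} ∈ G)).card : ℝ) ≤ (B.card : ℝ) - 1 := by
      have h3 : (B.filter (fun y => x ≠ y ∧ {x, y} ∈ G)).card ≤ (B.erase x).card := by
        apply card_le_card
        intro y hy
        rw [mem_filter] at hy
        exact mem_erase.2 ⟨hy.2.1.symm, hy.1⟩
      have h4 := card_erase_add_one hx
      have h5 : (B.filter (fun y => x ≠ y ∧ {x, y} ∈ G)).card + 1 ≤ B.card := by omega
      have h6 : ((B.filter (fun y => x ≠ y ∧ {x, y} ∈ G)).card : ℝ) + 1 ≤ B.card := by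
        exact_mod_cast h5
      linarith
    rw [div_le_iff₀ hd]
    have h7 : (1 - 1 / (B.card : ℝ)) * ((dd G x : ℝ) + 1) =
        (((B.card : ℝ) - 1) * ((dd G x : ℝ) + 1)) / B.card := by
      field_simp
    rw [h7, le_div_iff₀ hB]
    nlinarith

lemma compl_ge {G : Finset (Finset V)} {z : Finset V → ℝ}
    (hz : ∀ e ∈ G, ∀ x ∈ e, z e ≤ 1 / ((dd G x : ℝ) + 1)) (x : V) :
    1 / ((dd G x : ℝ) + 1) ≤ 1 - ∑ y, zz G z x y := by
  have h1 := zz_sum hz x univ
  have hd : (0 : ℝ) < (dd G x : ℝ) + 1 := by positivity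
  have h2 : (((univ : Finset V).filter (fun y => x ≠ y ∧ {x, y} ∈ G)).card : ℝ) ≤ dd G x := by
    exact_mod_cast cnt_le x univ
  have h3 : (((univ : Finset V).filter (fun y => x ≠ y ∧ {x, y} ∈ G)).card : ℝ) /
      ((dd G x : ℝ) + 1) ≤ (dd G x : ℝ) / ((dd G x : ℝ) + 1) := by
    exact div_le_div_of_nonneg_right h2 hd.le
  have h4 : (dd G x : ℝ) / ((dd G x : ℝ) + 1) = 1 - 1 / ((dd G x : ℝ) + 1) := by
    field_simp
    ring
  linarith

/-- the sum over ordered pairs -/
lemma pairs {G : Finset (Finset V)} (f : Finset V → ℝ) (hf : ∀ e ∈ G, 0 ≤ f e) :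
    2 * ∑ e ∈ G.filter (fun e => e.card = 2), f e ≤
      ∑ x, ∑ y, (if x ≠ y ∧ {x, y} ∈ G then f {x, y} else 0) := by
  rw [← Finset.sum_product', ← Finset.sum_filter, univ_product_univ]
  rw [← Finset.sum_fiberwise_of_maps_to (t := G.filter (fun e => e.card = 2))
    (g := fun p : V × V => ({p.1, p.2} : Finset V))]
  · rw [Finset.mul_sum]
    apply Finset.sum_le_sum
    intro e he
    rw [mem_filter] at he
    obtain ⟨a, b, hab, rfl⟩ := card_eq_two.1 he.2
    have h1 : ({(a, b), (b, a)} : Finset (V × V)) ⊆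
        (univ.filter (fun p : V × V => p.1 ≠ p.2 ∧ {p.1, p.2} ∈ G)).filter
          (fun p => ({p.1, p.2} : Finset V) = {a, b}) := by
      intro p hp
      rw [mem_insert, mem_singleton] at hp
      rw [mem_filter, mem_filter]
      rcases hp with rfl | rfl
      · exact ⟨⟨mem_univ _, hab, he.1⟩, rfl⟩
      · exact ⟨⟨mem_univ _, hab.symm, by simpa [pair_comm] using he.1⟩, pair_comm _ _⟩
    have h2 : (2 : ℝ) * f {a, b} = ∑ p ∈ ({(a, b), (b, a)} : Finset (V × V)), f {p.1, p.2} := by
      rw [Finset.sum_pair (by simp [hab])]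
      rw [pair_comm b a]
      ring
    rw [h2]
    apply Finset.sum_le_sum_of_subset_of_nonneg h1
    intro p hp _
    rw [mem_filter, mem_filter] at hp
    exact hf _ hp.1.2.2
  · intro p hp
    rw [mem_filter] at hp
    exact mem_filter.2 ⟨hp.2.2, card_pair hp.2.1⟩

/-- **local fractional Vizing**, weighted form, with singletons -/
theorem small_matching {G : Finset (Finset V)} (hG : ∀ e ∈ G, e.card = 1 ∨ e.card = 2)
    (w z : Finset V → ℝ) (hw : ∀ e, 0 ≤ w e) (hz0 : ∀ e, 0 ≤ z e)
    (hz : ∀ e ∈ G, ∀ x ∈ e, z e ≤ 1 / ((dd G x : ℝ) + 1)) :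
    ∃ M ⊆ G, (∀ E ∈ M, ∀ F ∈ M, E ≠ F → Disjoint E F) ∧ ∑ e ∈ G, w e * z e ≤ ∑ e ∈ M, w e := by
  have hZ := zz_zc hz0 hz
  let c : (V × V × Bool) ⊕ V → ℝ := fun e => match e with
    | .inl p => - w {p.1, p.2.1}
    | .inr v => - (2 * (if {v} ∈ G then w {v} else 0))
  obtain ⟨M, hM, hpos, hsum⟩ := round (E := (V × V × Bool) ⊕ V) (Fintype.card (V × Bool))
    (V × Bool) rfl (by rw [Fintype.card_prod, Fintype.card_bool]; exact even_two.mul_left _)
    ea eb (xx (zz G z)) c (fr hZ)
  -- uniqueness of the edge at a vertex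
  have huniq : ∀ v', ∀ e ∈ M, ∀ e' ∈ M, Cr ea eb {v'} e → Cr ea eb {v'} e' → e = e' := by
    intro v' e he e' he' h h'
    have h1 := hM.deg v'
    rw [card_eq_one] at h1
    obtain ⟨a, ha⟩ := h1
    have h2 : e ∈ M.filter (Cr ea eb {v'}) := mem_filter.2 ⟨he, h⟩
    have h3 : e' ∈ M.filter (Cr ea eb {v'}) := mem_filter.2 ⟨he', h'⟩
    rw [ha, mem_singleton] at h2 h3
    rw [h2, h3]
  let act : Bool → (V × V × Bool) ⊕ V → Prop := fun i e => match e with
    | .inl p => p.2.2 = i
    | .inr v => {v} ∈ G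
  have hact : ∀ i, DecidablePred (act i) := fun i => Classical.decPred _
  have hcr : ∀ i, ∀ e ∈ M, act i e → ∀ v ∈ st e, Cr ea eb {(v, i)} e := by
    rintro i (⟨x, y, j⟩ | u) he hi v hv
    · have hne := hM.noloop _ he
      have hj : j = i := hi
      subst hj
      have hxy : x ≠ y := by
        rintro rfl
        exact hne rfl
      have hv' : v = x ∨ v = y := by simpa [st] using hv
      rw [Cr_singleton]
      simp only [ea, eb, Prod.mk.injEq, and_true]
      rcases hv' with rfl | rfl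
      · intro h
        exact hxy (h.1 rfl).symm
      · intro h
        exact hxy (h.2 rfl)
    · have hv' : v = u := by simpa [st] using hv
      subst hv'
      rw [Cr_singleton]
      simp only [ea, eb, Prod.mk.injEq, true_and]
      cases i <;> simp
  have hst : ∀ e ∈ M, ∀ i, act i e → st e ∈ G := by
    rintro (⟨x, y, j⟩ | u) he i hi
    · have h1 := hpos _ he
      simp only [xx, zz] at h1
      by_contra h2
      rw [if_neg (fun h => h2 h.2)] at h1
      simp at h1
    · exact hi
  have hne : ∀ e : (V × V × Bool) ⊕ V, (st e).Nonempty := by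
    rintro (⟨x, y, j⟩ | u)
    · exact ⟨x, by simp [st]⟩
    · exact ⟨u, by simp [st]⟩
  have hinj : ∀ i, ∀ e ∈ M, act i e → ∀ e' ∈ M, act i e' → ∀ v, v ∈ st e → v ∈ st e' → e = e' :=
    fun i e he hi e' he' hi' v hv hv' => huniq (v, i) e he e' he' (hcr i e he hi v hv)
      (hcr i e' he' hi' v hv')
  let Nn : Bool → Finset (Finset V) := fun i => (M.filter (act i)).image st
  have hNw : ∀ i, ∑ e ∈ Nn i, w e = ∑ e ∈ M, if act i e then w (st e) else 0 := by
    intro i
    rw [Finset.sum_image, Finset.sum_filter]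
    intro e he e' he' h
    rw [mem_coe, mem_filter] at he he'
    obtain ⟨v, hv⟩ := hne e
    exact hinj i e he.1 he.2 e' he'.1 he'.2 v hv (h ▸ hv)
  have htot : (∑ e ∈ Nn false, w e) + ∑ e ∈ Nn true, w e = ∑ e ∈ M, - c e := by
    rw [hNw, hNw, ← Finset.sum_add_distrib]
    apply Finset.sum_congr rfl
    rintro (⟨x, y, j⟩ | u) _
    · cases j <;> simp [act, c, st]
    · simp only [act, c, st]
      by_cases hu : {u} ∈ G
      · simp only [hu, if_true]
        ring
      · simp [hu]
  have hR : ∑ e ∈ univ.filter (fun e => ea e ≠ eb e), c e * xx (zz G z) e =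
      ∑ e, c e * xx (zz G z) e := by
    rw [Finset.sum_filter]
    apply Finset.sum_congr rfl
    rintro (⟨x, y, j⟩ | u) _
    · by_cases hxy : x = y
      · subst hxy
        simp [ea, eb, xx, zz]
      · rw [if_pos]
        simp [ea, eb, hxy]
    · rw [if_pos]
      simp [ea, eb]
  have hR2 : ∑ e, c e * xx (zz G z) e =
      - (∑ x, ∑ y, (if x ≠ y ∧ {x, y} ∈ G then w {x, y} * z {x, y} else 0)) -
        2 * ∑ v, (if {v} ∈ G then w {v} else 0) * (1 - ∑ y, zz G z v y) := by
    rw [Fintype.sum_sum_type, sub_eq_add_neg]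
    congr 1
    · rw [Fintype.sum_prod_type, ← Finset.sum_neg_distrib]
      apply Finset.sum_congr rfl
      intro x _
      rw [Fintype.sum_prod_type, ← Finset.sum_neg_distrib]
      apply Finset.sum_congr rfl
      intro y _
      rw [Fintype.sum_bool]
      simp only [c, xx, zz]
      split_ifs <;> ring
    · rw [Finset.mul_sum, ← Finset.sum_neg_distrib]
      apply Finset.sum_congr rfl
      intro v _
      simp only [c, xx]
      ring
  have h1 := pairs (G := G) (fun e => w e * z e) (fun e _ => mul_nonneg (hw e) (hz0 e))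
  have h2 : ∑ e ∈ G.filter (fun e => e.card = 1), w e * z e ≤
      ∑ v, (if {v} ∈ G then w {v} else 0) * (1 - ∑ y, zz G z v y) := by
    have h3 : ∑ e ∈ G.filter (fun e => e.card = 1), w e * z e ≤
        ∑ v ∈ univ.filter (fun v : V => {v} ∈ G), w {v} * z {v} := by
      have h4 : G.filter (fun e => e.card = 1) ⊆
          (univ.filter (fun v : V => {v} ∈ G)).image (fun v => ({v} : Finset V)) := by
        intro e he
        rw [mem_filter] at he
        obtain ⟨v, rfl⟩ := card_eq_one.1 he.2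
        exact mem_image.2 ⟨v, mem_filter.2 ⟨mem_univ _, he.1⟩, rfl⟩
      refine (Finset.sum_le_sum_of_subset_of_nonneg h4
        (fun e _ _ => mul_nonneg (hw e) (hz0 e))).trans (le_of_eq ?_)
      rw [Finset.sum_image]
      intro v _ v' _ h
      exact singleton_injective h
    refine h3.trans ?_
    rw [Finset.sum_filter]
    apply Finset.sum_le_sum
    intro v _
    by_cases hv : {v} ∈ G
    · rw [if_pos hv, if_pos hv]
      apply mul_le_mul_of_nonneg_left _ (hw _)
      exact (hz {v} hv v (by simp)).trans (compl_ge hz v)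
    · rw [if_neg hv, if_neg hv, zero_mul]
  have h5 : ∑ e ∈ G, w e * z e = ∑ e ∈ G.filter (fun e => e.card = 1), w e * z e +
      ∑ e ∈ G.filter (fun e => e.card = 2), w e * z e := by
    rw [← Finset.sum_filter_add_sum_filter_not G (fun e => e.card = 1)]
    congr 1
    apply Finset.sum_congr _ (fun _ _ => rfl)
    ext e
    rw [mem_filter, mem_filter]
    constructor
    · rintro ⟨he, h⟩
      exact ⟨he, (hG e he).resolve_left h⟩
    · rintro ⟨he, h⟩
      exact ⟨he, by omega⟩
  rw [Finset.sum_neg_distrib] at htot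
  rw [hR, hR2] at hsum
  have h6 : 2 * ∑ e ∈ G, w e * z e ≤ (∑ e ∈ Nn false, w e) + ∑ e ∈ Nn true, w e := by
    rw [h5]
    linarith
  have hfin : ∀ i, ∑ e ∈ G, w e * z e ≤ ∑ e ∈ Nn i, w e →
      ∃ M ⊆ G, (∀ E ∈ M, ∀ F ∈ M, E ≠ F → Disjoint E F) ∧ ∑ e ∈ G, w e * z e ≤ ∑ e ∈ M, w e := by
    intro i hi
    refine ⟨Nn i, ?_, ?_, hi⟩
    · intro e he
      obtain ⟨e', he', rfl⟩ := mem_image.1 he
      rw [mem_filter] at he'
      exact hst e' he'.1 i he'.2
    · intro E hE F hF hEF
      obtain ⟨e, he, rfl⟩ := mem_image.1 hE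
      obtain ⟨e', he', rfl⟩ := mem_image.1 hF
      rw [mem_filter] at he he'
      rw [Finset.disjoint_left]
      intro v hv hv'
      exact hEF (by rw [hinj i e he.1 he.2 e' he'.1 he'.2 v hv hv'])
  rcases le_total (∑ e ∈ Nn false, w e) (∑ e ∈ Nn true, w e) with h | h
  · exact hfin true (by linarith)
  · exact hfin false (by linarith)

end Pool.Agent.H492.BF
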