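import Pool.Agent.H492.BF.C

/-! Linear hypergraphs: the bound `D + 1` under a local degree condition. -/

set_option autoImplicit false
set_option linter.unusedSectionVars false

namespace Pool.Agent.H492.BF

open Finset

lemma num4 {k D P R a b K : ℝ} (hk : 2 ≤ k) (h1 : b + k ≤ P) (h2 : a ≤ R)
    (h3 : k * R + (k - 1) * P ≤ k * D)
    (hK : (K ≤ b + 1 ∧ P ≤ k ^ 2) ∨ (K ≤ k * (k - 1) + 1 ∧ k ^ 2 ≤ P)) :
    a + (b + K + 1) / 2 ≤ D + 1 := by
  have hk0 : 0 < k := by linarith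
  have ha : k * a ≤ k * R := mul_le_mul_of_nonneg_left h2 hk0.le
  have hb : k * b ≤ k * (P - k) := mul_le_mul_of_nonneg_left (by linarith) hk0.le
  rcases hK with ⟨hK, hP⟩ | ⟨hK, hP⟩
  · have hK' : k * K ≤ k * (b + 1) := mul_le_mul_of_nonneg_left hK hk0.le
    have : k * (a + (b + K + 1) / 2) ≤ k * (D + 1) := by nlinarith
    exact le_of_mul_le_mul_left this hk0
  · have hK' : k * K ≤ k * (k * (k - 1) + 1) := mul_le_mul_of_nonneg_left hK hk0.le
    have hP' : (k - 2) * k ^ 2 ≤ (k - 2) * P := mul_le_mul_of_nonneg_left hP (by linarith)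
    have : k * (a + (b + K + 1) / 2) ≤ k * (D + 1) := by nlinarith
    exact le_of_mul_le_mul_left this hk0

variable {V : Type} [Fintype V] [DecidableEq V]

theorem partG {H : Finset (Finset V)} (hl : Lin H) {D : ℕ} (hD : Deg H D)
    (hH : ∀ E ∈ H, 2 ≤ E.card → ∀ x ∈ E, 2 * (∑ v ∈ E, rgt H E.card v) +
      (∑ v ∈ E, rho H E.card v) + rho H E.card x ≤ 2 * D + E.card + 1)
    (w : Finset V → ℝ) :
    ∃ M ⊆ H, (∀ E ∈ M, ∀ F ∈ M, E ≠ F → Disjoint E F) ∧
      ∑ E ∈ H, w E ≤ ((D : ℝ) + 1) * ∑ E ∈ M, w E := by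
  apply main hl w
  · positivity
  · intro E hE
    rcases le_or_gt E.card 1 with h | h
    · exact small hl hD hE h
    · have h1 : (nbe H E : ℝ) + E.card ≤ ((∑ v ∈ E, rho H E.card v : ℕ) : ℝ) := by
        exact_mod_cast nbe_le hE
      have h2 : (nbg H E : ℝ) ≤ ((∑ v ∈ E, rgt H E.card v : ℕ) : ℝ) := by
        exact_mod_cast (nbg_le (H := H) (E := E))
      rcases KK_cases (H := H) (show 1 ≤ E.card by omega)
        ((∑ v ∈ E, rho H E.card v : ℕ) : ℝ) with hK | hK
      · obtain ⟨x, hx, hxs⟩ := Finset.exists_mem_eq_sup E (card_pos.1 (by omega))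
          (rho H E.card)
        have h3 := hH E hE h x hx
        rw [← hxs] at h3
        have h4 : 2 * ((∑ v ∈ E, rgt H E.card v : ℕ) : ℝ) +
            ((∑ v ∈ E, rho H E.card v : ℕ) : ℝ) + ((E.sup (rho H E.card) : ℕ) : ℝ) ≤
              2 * D + E.card + 1 := by exact_mod_cast h3
        linarith
      · exact num4 (by exact_mod_cast h) h1 h2 (sum_deg hl hD (by omega)) hK

end Pool.Agent.H492.BF
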