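import Pool.Agent.H492.BF.E
import Pool.Agent.H492.BF.G

/-! Linear hypergraphs: larger edges by hierarchical random matchings, two-element edges by the
local fractional theorem of Vizing. -/

set_option autoImplicit false
set_option linter.unusedSectionVars false

namespace Pool.Agent.H492.BF

open Finset

variable {V : Type} [Fintype V] [DecidableEq V]

lemma ineqG {H : Finset (Finset V)} (hl : Lin H) {D : ℕ} (hD : Deg H D)
    (hH : ∀ E ∈ H, 2 ≤ E.card → ∀ x ∈ E, 2 * (∑ v ∈ E, rgt H E.card v) +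
      (∑ v ∈ E, rho H E.card v) + rho H E.card x ≤ 2 * D + E.card + 1)
    {E : Finset V} (hE : E ∈ H) :
    (nbg H E : ℝ) + ((nbe H E : ℝ) + KK H E + 1) / 2 ≤ D + 1 := by
  rcases le_or_gt E.card 1 with h | h
  · exact small hl hD hE h
  · have h1 : (nbe H E : ℝ) + E.card ≤ ((∑ v ∈ E, rho H E.card v : ℕ) : ℝ) := by
      exact_mod_cast nbe_le hE
    have h2 : (nbg H E : ℝ) ≤ ((∑ v ∈ E, rgt H E.card v : ℕ) : ℝ) := by
      exact_mod_cast (nbg_le (H := H) (E := E))
    rcases KK_cases (H := H) (show 1 ≤ E.card by omega)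
      ((∑ v ∈ E, rho H E.card v : ℕ) : ℝ) with hK | hK
    · obtain ⟨x, hx, hxs⟩ := Finset.exists_mem_eq_sup E (card_pos.1 (by omega))
        (rho H E.card)
      have h3 := hH E hE h x hx
      rw [← hxs] at h3
      have h4 : 2 * ((∑ v ∈ E, rgt H E.card v : ℕ) : ℝ) +
          ((∑ v ∈ E, rho H E.card v : ℕ) : ℝ) + ((E.sup (rho H E.card) : ℕ) : ℝ) ≤
            2 * D + E.card + 1 := by exact_mod_cast h3
      linarith
    · exact num4 (by exact_mod_cast h) h1 h2 (sum_deg hl hD (by omega)) hK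

lemma swap (T Sm : Finset (Finset V)) (g : Finset V → ℝ) :
    ∑ F ∈ T, ∑ e ∈ Sm.filter (fun e => ¬ Disjoint F e), g e =
      ∑ e ∈ Sm, g e * ((T.filter (fun F => ¬ Disjoint F e)).card : ℝ) := by
  simp only [Finset.sum_filter]
  rw [Finset.sum_comm]
  apply Finset.sum_congr rfl
  intro e _
  rw [← Finset.sum_filter, Finset.sum_const, nsmul_eq_mul, mul_comm]

lemma mono_filter {H L : Finset (Finset V)} (hL : L ⊆ H) (p : Finset V → Prop) [DecidablePred p] :
    (L.filter p).card ≤ (H.filter p).card :=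
  card_le_card (filter_subset_filter p hL)

theorem partR {H : Finset (Finset V)} (hl : Lin H) {D : ℕ} (hD : Deg H D)
    (hne : ∀ E ∈ H, E.Nonempty)
    (hH3 : ∀ E ∈ H, 3 ≤ E.card → ∀ x ∈ E, 2 * (∑ v ∈ E, rgt H E.card v) +
      (∑ v ∈ E, rho H E.card v) + rho H E.card x ≤ 2 * D + E.card + 1)
    (hH2 : ∀ E ∈ H, E.card = 2 → ∀ x ∈ E, (∑ v ∈ E, rgt H 2 v) + rho H 2 x ≤ D)
    (w : Finset V → ℝ) (hw0 : ∀ E ∈ H, 0 ≤ w E) :
    ∃ M ⊆ H, (∀ E ∈ M, ∀ F ∈ M, E ≠ F → Disjoint E F) ∧
      ∑ E ∈ H, w E ≤ ((D : ℝ) + 1) * ∑ E ∈ M, w E := by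
  classical
  -- the large and the small edges
  set L := H.filter (fun E => 3 ≤ E.card) with hL
  set Sm := H.filter (fun E => ¬ 3 ≤ E.card) with hSm
  have hLH : L ⊆ H := filter_subset _ _
  have hSH : Sm ⊆ H := filter_subset _ _
  have hSc : ∀ e ∈ Sm, e.card = 1 ∨ e.card = 2 := by
    intro e he
    have h1 := (mem_filter.1 he).2
    have h2 := card_pos.2 (hne e (hSH he))
    omega
  let u : Finset V → ℝ := fun E => |w E|
  have hu0 : ∀ E, 0 ≤ u E := fun E => abs_nonneg _
  have huw : ∀ E ∈ H, u E = w E := fun E hE => abs_of_nonneg (hw0 E hE)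
  let mt : Finset V → ℕ := fun e => (L.filter (fun F => ¬ Disjoint F e)).card
  have hmt : ∀ e, mt e ≤ ∑ v ∈ e, rgt H 2 v := by
    intro e
    refine le_trans (card_le_card (t := e.biUnion
      (fun v => (H.filter (fun F => v ∈ F ∧ 2 < F.card)))) ?_) card_biUnion_le
    intro F hF
    rw [mem_filter, hL, mem_filter, not_disjoint_iff] at hF
    obtain ⟨⟨hFH, hc⟩, x, hx1, hx2⟩ := hF
    exact mem_biUnion.2 ⟨x, hx2, mem_filter.2 ⟨hFH, hx1, hc⟩⟩
  have hdd : ∀ x, dd Sm x ≤ rho H 2 x := by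
    intro x
    exact mono_filter hSH (fun e => x ∈ e ∧ e.card = 2)
  have hkey : ∀ e ∈ Sm, ∀ x ∈ e, dd Sm x + mt e ≤ D := by
    intro e he x hx
    have h1 := hmt e
    have h2 := hdd x
    rcases hSc e he with h | h
    · obtain ⟨y, rfl⟩ := card_eq_one.1 h
      rw [mem_singleton] at hx
      subst hx
      rw [Finset.sum_singleton] at h1
      have h3 := deg2 hl hD 2 x
      omega
    · have h3 := hH2 e (hSH he) h x hx
      omega
  have hkeyR : ∀ e ∈ Sm, ∀ x ∈ e, (dd Sm x : ℝ) + 1 ≤ (D : ℝ) + 1 - mt e := by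
    intro e he x hx
    have h1 : ((dd Sm x + mt e : ℕ) : ℝ) ≤ D := by exact_mod_cast hkey e he x hx
    push_cast at h1
    linarith
  let z : Finset V → ℝ := fun e => if e ∈ Sm then 1 / ((D : ℝ) + 1 - mt e) else 0
  have hpos : ∀ e ∈ Sm, 0 < (D : ℝ) + 1 - mt e := by
    intro e he
    obtain ⟨x, hx⟩ := hne e (hSH he)
    exact lt_of_lt_of_le (by positivity) (hkeyR e he x hx)
  have hz0 : ∀ e, 0 ≤ z e := by
    intro e
    simp only [z]
    split_ifs with h
    · exact (one_div_pos.2 (hpos e h)).le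
    · exact le_rfl
  -- the large edges
  have hLl : Lin L := fun E hE F hF h => hl E (hLH hE) F (hLH hF) h
  have hLD : Deg L D := by
    intro v
    refine le_trans (Set.ncard_le_ncard ?_ (Set.toFinite _)) (hD v)
    rintro x ⟨h1, E, hE, h2, h3⟩
    exact ⟨h1, E, hLH hE, h2, h3⟩
  have hLG : ∀ E ∈ L, 2 ≤ E.card → ∀ x ∈ E, 2 * (∑ v ∈ E, rgt L E.card v) +
      (∑ v ∈ E, rho L E.card v) + rho L E.card x ≤ 2 * D + E.card + 1 := by
    intro E hE _ x hx
    have h1 := hH3 E (hLH hE) (mem_filter.1 hE).2 x hx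
    have h2 : ∑ v ∈ E, rgt L E.card v ≤ ∑ v ∈ E, rgt H E.card v :=
      Finset.sum_le_sum (fun v _ => mono_filter hLH _)
    have h3 : ∑ v ∈ E, rho L E.card v ≤ ∑ v ∈ E, rho H E.card v :=
      Finset.sum_le_sum (fun v _ => mono_filter hLH _)
    have h4 : rho L E.card x ≤ rho H E.card x := mono_filter hLH _
    omega
  obtain ⟨S, hSL, hSd, hSw⟩ := main hLl
    (fun F => u F - ∑ e ∈ Sm.filter (fun e => ¬ Disjoint F e), u e * z e) ((D : ℝ) + 1)
    (by positivity) (fun E hE => ineqG hLl hLD hLG hE)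
  -- the small edges
  set G := Sm.filter (fun e => ∀ F ∈ S, Disjoint F e) with hG
  have hGS : G ⊆ Sm := filter_subset _ _
  obtain ⟨M, hMG, hMd, hMw⟩ := small_matching (G := G) (fun e he => hSc e (hGS he)) u z hu0 hz0 (by
    intro e he x hx
    simp only [z]
    rw [if_pos (hGS he)]
    apply one_div_le_one_div_of_le (by positivity)
    refine le_trans ?_ (hkeyR e (hGS he) x hx)
    have : (dd G x : ℝ) ≤ dd Sm x := by
      exact_mod_cast mono_filter hGS (fun e => x ∈ e ∧ e.card = 2)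
    linarith)
  have hdis : Disjoint S M := by
    rw [Finset.disjoint_left]
    intro E h1 h2
    exact (mem_filter.1 (hGS (hMG h2))).2 (mem_filter.1 (hSL h1)).2
  refine ⟨S ∪ M, ?_, ?_, ?_⟩
  · intro E hE
    rcases mem_union.1 hE with h | h
    · exact hLH (hSL h)
    · exact hSH (hGS (hMG h))
  · intro E hE F hF hEF
    rcases mem_union.1 hE with h | h
    · rcases mem_union.1 hF with h' | h'
      · exact hSd E h F h' hEF
      · exact (mem_filter.1 (hMG h')).2 E h
    · rcases mem_union.1 hF with h' | h'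
      · exact ((mem_filter.1 (hMG h)).2 F h').symm
      · exact hMd E h F h' hEF
  · have e1 : ∑ E ∈ H, w E = ∑ E ∈ L, u E + ∑ E ∈ Sm, u E := by
      rw [← Finset.sum_filter_add_sum_filter_not H (fun E => 3 ≤ E.card)]
      congr 1
      · exact Finset.sum_congr rfl (fun E hE => (huw E (hLH hE)).symm)
      · exact Finset.sum_congr rfl (fun E hE => (huw E (hSH hE)).symm)
    have e2 : ∑ E ∈ S ∪ M, w E = ∑ E ∈ S, u E + ∑ E ∈ M, u E := by
      rw [Finset.sum_union hdis]
      congr 1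
      · exact Finset.sum_congr rfl (fun E hE => (huw E (hLH (hSL hE))).symm)
      · exact Finset.sum_congr rfl (fun E hE => (huw E (hSH (hGS (hMG hE)))).symm)
    have e3 : ∑ e ∈ Sm, u e * z e * (mt e : ℝ) = ((D : ℝ) + 1) * (∑ e ∈ Sm, u e * z e) -
        ∑ e ∈ Sm, u e := by
      rw [Finset.mul_sum, ← Finset.sum_sub_distrib]
      apply Finset.sum_congr rfl
      intro e he
      have h1 := hpos e he
      simp only [z]
      rw [if_pos he]
      field_simp
      ring
    have e4 : ∑ e ∈ Sm, u e * z e ≤ ∑ e ∈ G, u e * z e +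
        ∑ e ∈ Sm, u e * z e * ((S.filter (fun F => ¬ Disjoint F e)).card : ℝ) := by
      have e40 : ∑ e ∈ G, u e * z e =
          ∑ e ∈ Sm, if (∀ F ∈ S, Disjoint F e) then u e * z e else 0 := by
        rw [hG]
        exact Finset.sum_filter _ _
      rw [e40, ← Finset.sum_add_distrib]
      apply Finset.sum_le_sum
      intro e he
      have h0 : 0 ≤ u e * z e := mul_nonneg (hu0 e) (hz0 e)
      by_cases h : ∀ F ∈ S, Disjoint F e
      · rw [if_pos h]
        have : 0 ≤ u e * z e * ((S.filter (fun F => ¬ Disjoint F e)).card : ℝ) := by positivity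
        linarith
      · rw [if_neg h, zero_add]
        push Not at h
        obtain ⟨F, hF, hF'⟩ := h
        have h1 : 1 ≤ (S.filter (fun F => ¬ Disjoint F e)).card :=
          card_pos.2 ⟨F, mem_filter.2 ⟨hF, hF'⟩⟩
        have h2 : (1 : ℝ) ≤ ((S.filter (fun F => ¬ Disjoint F e)).card : ℝ) := by
          exact_mod_cast h1
        nlinarith
    rw [Finset.sum_sub_distrib, Finset.sum_sub_distrib, swap, swap] at hSw
    rw [e1, e2]
    have e5 : ∑ e ∈ Sm, u e * z e * ((L.filter (fun F => ¬ Disjoint F e)).card : ℝ) =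
        ∑ e ∈ Sm, u e * z e * (mt e : ℝ) := rfl
    rw [e5, e3] at hSw
    have hD0 : (0 : ℝ) ≤ (D : ℝ) + 1 := by positivity
    have e6 := mul_le_mul_of_nonneg_left e4 hD0
    have e7 := mul_le_mul_of_nonneg_left hMw hD0
    nlinarith

end Pool.Agent.H492.BF
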